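import Mathlib

set_option autoImplicit false

/-!
Basic theory of polytopes given by finitely many linear inequalities:
finiteness of extreme points, equivalence of the two descriptions, description of the facets.
-/

namespace Pool.Agent.Convex97

open Module Finset Filter Topology

section

variable {E : Type} [NormedAddCommGroup E] [NormedSpace ℝ E] [FiniteDimensional ℝ E]
variable {ι : Type}

/-- The polyhedron `{x | f i x ≤ b i for all i}`. -/
def hp (f : ι → E →ₗ[ℝ] ℝ) (b : ι → ℝ) : Set E := {x | ∀ i, f i x ≤ b i}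

/-- The face of `hp f b` where the `i`-th inequality is an equality. -/
def fc (f : ι → E →ₗ[ℝ] ℝ) (b : ι → ℝ) (i : ι) : Set E := {x | x ∈ hp f b ∧ f i x = b i}

omit [FiniteDimensional ℝ E] in
lemma hp_convex (f : ι → E →ₗ[ℝ] ℝ) (b : ι → ℝ) : Convex ℝ (hp f b) := by
  have : hp f b = ⋂ i, {x | f i x ≤ b i} := by ext x; simp [hp]
  rw [this]
  exact convex_iInter (fun i => convex_halfSpace_le (f i).isLinear _)

lemma cont (g : E →ₗ[ℝ] ℝ) : Continuous g := g.continuous_of_finiteDimensional

lemma hp_closed (f : ι → E →ₗ[ℝ] ℝ) (b : ι → ℝ) : IsClosed (hp f b) := by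
  have : hp f b = ⋂ i, {x | f i x ≤ b i} := by ext x; simp [hp]
  rw [this]
  exact isClosed_iInter (fun i => isClosed_le (cont (f i)) continuous_const)

omit [FiniteDimensional ℝ E] in
lemma fc_convex (f : ι → E →ₗ[ℝ] ℝ) (b : ι → ℝ) (i : ι) : Convex ℝ (fc f b i) := by
  have : fc f b i = hp f b ∩ {x | f i x = b i} := rfl
  rw [this]
  exact (hp_convex f b).inter (convex_hyperplane (f i).isLinear _)

lemma fc_closed (f : ι → E →ₗ[ℝ] ℝ) (b : ι → ℝ) (i : ι) : IsClosed (fc f b i) := by
  have : fc f b i = hp f b ∩ {x | f i x = b i} := rfl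
  rw [this]
  exact (hp_closed f b).inter (isClosed_eq (cont (f i)) continuous_const)

variable [Fintype ι]

/-- Moving from a point of the polyhedron in a direction killed by the active functionals stays
inside for a short time. -/
lemma eventually_mem_hp (f : ι → E →ₗ[ℝ] ℝ) (b : ι → ℝ) (x u : E) (hx : x ∈ hp f b)
    (hu : ∀ i, f i x = b i → f i u = 0) : ∀ᶠ t in 𝓝 (0 : ℝ), x + t • u ∈ hp f b := by
  have h1 : ∀ i, ∀ᶠ t in 𝓝 (0 : ℝ), f i (x + t • u) ≤ b i := by
    intro i
    by_cases hi : f i x = b i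
    · apply Eventually.of_forall
      intro t
      rw [map_add, map_smul, hu i hi, smul_zero, add_zero, hi]
    · have hlt : f i x < b i := lt_of_le_of_ne (hx i) hi
      have hc : Continuous (fun t : ℝ => f i (x + t • u)) := (cont (f i)).comp (by fun_prop)
      have h2 : ∀ᶠ t in 𝓝 (0 : ℝ), f i (x + t • u) < b i := by
        apply hc.continuousAt.eventually_lt continuousAt_const
        simpa using hlt
      exact h2.mono (fun t ht => ht.le)
  exact (eventually_all.mpr h1).mono (fun t ht i => ht i)

/-- At an extreme point the active functionals have no common nonzero kernel vector. -/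
lemma active_ker (f : ι → E →ₗ[ℝ] ℝ) (b : ι → ℝ) (x : E)
    (hx : x ∈ Set.extremePoints ℝ (hp f b)) (u : E) (hu : ∀ i, f i x = b i → f i u = 0) :
    u = 0 := by
  have h1 := eventually_mem_hp f b x u hx.1 hu
  have h2 := eventually_mem_hp f b x (-u) hx.1 (fun i hi => by rw [map_neg, hu i hi, neg_zero])
  obtain ⟨t, ⟨ht1, ht2⟩, htpos⟩ := (((h1.and h2).filter_mono nhdsWithin_le_nhds).and
      (self_mem_nhdsWithin : Set.Ioi (0:ℝ) ∈ 𝓝[>] 0)).exists
  have h3 : x ∈ openSegment ℝ (x + t • u) (x + t • (-u)) := by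
    refine ⟨1/2, 1/2, by norm_num, by norm_num, by norm_num, ?_⟩
    module
  have h4 := hx.2 ht1 ht2 h3
  have h5 : t • u = 0 := by
    have := h4
    simpa using this
  have htne : t ≠ 0 := (Set.mem_Ioi.mp htpos).ne'
  exact (smul_eq_zero.mp h5).resolve_left htne

lemma finite_extremePoints (f : ι → E →ₗ[ℝ] ℝ) (b : ι → ℝ) :
    (Set.extremePoints ℝ (hp f b)).Finite := by
  apply Set.Finite.of_finite_image (f := fun x => {i | f i x = b i}) (Set.toFinite _)
  intro x hx y hy hxy
  have h1 : ∀ i, f i x = b i → f i y = b i := by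
    intro i hi
    have : i ∈ {i | f i x = b i} := hi
    simp only at hxy
    rw [hxy] at this
    exact this
  have h2 := active_ker f b x hx (y - x) (fun i hi => by rw [map_sub, hi, h1 i hi, sub_self])
  exact (sub_eq_zero.mp h2).symm

/-- A bounded polyhedron is the convex hull of a finite set (its extreme points). -/
lemma hp_eq_convexHull (f : ι → E →ₗ[ℝ] ℝ) (b : ι → ℝ)
    (hb : Bornology.IsBounded (hp f b)) :
    hp f b = convexHull ℝ (Set.extremePoints ℝ (hp f b)) := by
  have hcomp : IsCompact (hp f b) := Metric.isCompact_of_isClosed_isBounded (hp_closed f b) hb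
  have h1 := closure_convexHull_extremePoints hcomp (hp_convex f b)
  rw [((finite_extremePoints f b).isCompact_convexHull ℝ).isClosed.closure_eq] at h1
  exact h1.symm

lemma exists_finset_hull (f : ι → E →ₗ[ℝ] ℝ) (b : ι → ℝ)
    (hb : Bornology.IsBounded (hp f b)) : ∃ V : Finset E, hp f b = convexHull ℝ (V : Set E) := by
  refine ⟨(finite_extremePoints f b).toFinset, ?_⟩
  rw [Set.Finite.coe_toFinset]
  exact hp_eq_convexHull f b hb

end

section

variable {E : Type} [NormedAddCommGroup E] [NormedSpace ℝ E] [FiniteDimensional ℝ E]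

/-- The convex hull of a finite set with an interior point `o` is a polyhedron
`{x | g (x - o) ≤ 1 for all g ∈ W}` for a finite set `W` of functionals. -/
lemma hull_eq_hp (V : Finset E) (o : E) (ho : o ∈ interior (convexHull ℝ (V : Set E))) :
    ∃ W : Finset (StrongDual ℝ E),
      convexHull ℝ (V : Set E) = {x | ∀ g ∈ W, g (x - o) ≤ 1} := by
  classical
  -- the polar
  let ev : V → (StrongDual ℝ E) →ₗ[ℝ] ℝ := fun v =>
    { toFun := fun g => g (v.1 - o)
      map_add' := fun g h => rfl
      map_smul' := fun c g => rfl }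
  have hbdd : Bornology.IsBounded (hp ev (fun _ => 1)) := by
    obtain ⟨r, hr, hball⟩ := Metric.isOpen_iff.mp isOpen_interior o ho
    rw [Metric.isBounded_iff_subset_closedBall 0]
    refine ⟨2 / r, ?_⟩
    intro g hg
    rw [mem_closedBall_zero_iff]
    -- g ≤ 1 on the translate of the hull
    have h1 : ∀ x ∈ convexHull ℝ (V : Set E), g (x - o) ≤ 1 := by
      intro x hx
      have hsub : convexHull ℝ (V : Set E) ⊆ {x | g (x - o) ≤ 1} := by
        apply convexHull_min
        · intro v hv
          exact hg ⟨v, hv⟩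
        · have : {x | g (x - o) ≤ 1} = {x | (g : E →ₗ[ℝ] ℝ) x ≤ 1 + g o} := by
            ext x
            simp only [map_sub, Set.mem_ofPred_eq, ContinuousLinearMap.coe_coe]
            constructor <;> intro h <;> linarith
          rw [this]
          exact convex_halfSpace_le (g : E →ₗ[ℝ] ℝ).isLinear _
      exact hsub hx
    apply ContinuousLinearMap.opNorm_le_bound _ (by positivity)
    intro x
    rw [Real.norm_eq_abs, abs_le]
    have h2 : ∀ y : E, g y ≤ 2 / r * ‖y‖ := by
      intro y
      by_cases hy : y = 0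
      · rw [hy]; simp
      · have hny : 0 < ‖y‖ := norm_pos_iff.mpr hy
        have hmem : o + (r / (2 * ‖y‖)) • y ∈ convexHull ℝ (V : Set E) := by
          apply interior_subset
          apply hball
          rw [Metric.mem_ball, dist_eq_norm, add_sub_cancel_left, norm_smul, Real.norm_eq_abs,
            abs_of_pos (by positivity)]
          have : r / (2 * ‖y‖) * ‖y‖ = r / 2 := by field_simp
          rw [this]; linarith
        have h3 := h1 _ hmem
        rw [add_sub_cancel_left, map_smul, smul_eq_mul] at h3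
        have h4 : r / (2 * ‖y‖) * g y * (2 / r * ‖y‖) ≤ 1 * (2 / r * ‖y‖) :=
          mul_le_mul_of_nonneg_right h3 (by positivity)
        have h5 : r / (2 * ‖y‖) * g y * (2 / r * ‖y‖) = g y := by
          field_simp
        rw [h5, one_mul] at h4
        exact h4
    constructor
    · have := h2 (-x)
      rw [map_neg, norm_neg] at this
      linarith
    · exact h2 x
  obtain ⟨W, hW⟩ := exists_finset_hull ev (fun _ => 1) hbdd
  refine ⟨W, Set.Subset.antisymm ?_ ?_⟩
  · -- points of the hull satisfy the inequalities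
    apply convexHull_min
    · intro v hv g hg
      have h1 : g ∈ hp ev (fun _ => 1) := by
        rw [hW]; exact subset_convexHull ℝ _ hg
      exact h1 ⟨v, hv⟩
    · have : {x | ∀ g ∈ W, g (x - o) ≤ 1} =
          ⋂ g : W, {x | ((g : StrongDual ℝ E) : E →ₗ[ℝ] ℝ) x ≤ 1 + (g : StrongDual ℝ E) o} := by
        ext x
        simp only [map_sub, Set.mem_ofPred_eq, Set.mem_iInter, Subtype.forall,
          ContinuousLinearMap.coe_coe]
        constructor
        · intro h g hg; have := h g hg; linarith
        · intro h g hg; have := h g hg; linarith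
      rw [this]
      exact convex_iInter (fun g => convex_halfSpace_le (g.1 : E →ₗ[ℝ] ℝ).isLinear _)
  · intro x hx
    by_contra hcon
    have hclosed : IsClosed (convexHull ℝ (V : Set E)) :=
      (V.finite_toSet.isCompact_convexHull ℝ).isClosed
    obtain ⟨g, u, hgu, hux⟩ := geometric_hahn_banach_closed_point
      (convex_convexHull ℝ (V : Set E)) hclosed hcon
    -- normalise
    have hgo : g o < u := hgu o (interior_subset ho)
    have hpos : 0 < u - g o := by linarith
    set g' : StrongDual ℝ E := (u - g o)⁻¹ • g with hg'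
    have hg'mem : g' ∈ hp ev (fun _ => 1) := by
      intro v
      change g' (v.1 - o) ≤ 1
      rw [hg', smul_apply, smul_eq_mul, map_sub]
      have h1 := hgu v.1 (subset_convexHull ℝ _ v.2)
      rw [inv_mul_le_one₀ hpos]
      linarith
    rw [hW] at hg'mem
    have hsub : convexHull ℝ (W : Set (StrongDual ℝ E)) ⊆ {g | g (x - o) ≤ 1} := by
      apply convexHull_min
      · intro g hg; exact hx g hg
      · let evx : (StrongDual ℝ E) →ₗ[ℝ] ℝ :=
          { toFun := fun g => g (x - o)
            map_add' := fun g h => rfl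
            map_smul' := fun c g => rfl }
        exact convex_halfSpace_le evx.isLinear 1
    have h2 := hsub hg'mem
    simp only [Set.mem_ofPred_eq] at h2
    rw [hg', smul_apply, smul_eq_mul, map_sub, inv_mul_le_one₀ hpos] at h2
    linarith

/-- Irredundant description of the hull of a finite set with nonempty interior. -/
theorem exists_irredundant (V : Finset E) (o : E)
    (ho : o ∈ interior (convexHull ℝ (V : Set E))) :
    ∃ (ι : Type) (_ : Fintype ι) (f : ι → E →ₗ[ℝ] ℝ) (b : ι → ℝ),
      convexHull ℝ (V : Set E) = hp f b ∧ (∀ i, f i ≠ 0) ∧ (∀ i, f i o < b i) ∧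
      ∀ i, ∃ z, f i z = b i ∧ ∀ j, j ≠ i → f j z < b j := by
  classical
  obtain ⟨W0, hW0⟩ := hull_eq_hp V o ho
  -- minimal subset
  have hne : {n : ℕ | ∃ W : Finset (StrongDual ℝ E), W.card = n ∧
      convexHull ℝ (V : Set E) = {x | ∀ g ∈ W, g (x - o) ≤ 1}}.Nonempty := ⟨_, W0, rfl, hW0⟩
  obtain ⟨W, hWcard, hW⟩ := Nat.sInf_mem hne
  have hmin : ∀ W' : Finset (StrongDual ℝ E),
      convexHull ℝ (V : Set E) = {x | ∀ g ∈ W', g (x - o) ≤ 1} → W.card ≤ W'.card := by
    intro W' hW'
    rw [hWcard]
    exact Nat.sInf_le ⟨W', rfl, hW'⟩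
  have hirr : ∀ g ∈ W, ∃ y, 1 < g (y - o) ∧ ∀ h ∈ W, h ≠ g → h (y - o) ≤ 1 := by
    intro g hg
    by_contra hcon
    push Not at hcon
    have h1 : convexHull ℝ (V : Set E) = {x | ∀ h ∈ W.erase g, h (x - o) ≤ 1} := by
      rw [hW]
      ext x
      simp only [Set.mem_ofPred_eq, mem_erase, and_imp]
      constructor
      · intro h k _ hk; exact h k hk
      · intro h k hk
        by_cases hkg : k = g
        · subst hkg
          by_contra hlt
          push Not at hlt
          obtain ⟨h', hh'W, hh'ne, hh'⟩ := hcon x hlt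
          have := h h' hh'ne hh'W
          linarith
        · exact h k hkg hk
    have h2 := hmin _ h1
    have h3 := Finset.card_erase_lt_of_mem hg
    omega
  refine ⟨W, inferInstance, fun g => (g.1 : E →ₗ[ℝ] ℝ), fun g => 1 + g.1 o, ?_, ?_, ?_, ?_⟩
  · rw [hW]
    ext x
    simp only [map_sub, Set.mem_ofPred_eq, hp, ContinuousLinearMap.coe_coe, Subtype.forall]
    constructor
    · intro h g hg; have := h g hg; linarith
    · intro h g hg; have := h g hg; linarith
  · intro g h0
    obtain ⟨y, hy, _⟩ := hirr g.1 g.2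
    have : g.1 (y - o) = 0 := congrArg (fun l : E →ₗ[ℝ] ℝ => l (y - o)) h0
    linarith
  · intro g
    simp only [ContinuousLinearMap.coe_coe]
    linarith
  · intro g
    obtain ⟨y, hy, hy'⟩ := hirr g.1 g.2
    have hpos : 0 < g.1 (y - o) := by linarith
    refine ⟨o + (g.1 (y - o))⁻¹ • (y - o), ?_, ?_⟩
    · simp only [ContinuousLinearMap.coe_coe, map_add, map_smul, smul_eq_mul]
      rw [inv_mul_cancel₀ hpos.ne']
      ring
    · intro h hne
      have h1 := hy' h.1 h.2 (fun he => hne (Subtype.ext he))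
      simp only [ContinuousLinearMap.coe_coe, map_add, map_smul, smul_eq_mul]
      have h2 : (g.1 (y - o))⁻¹ * h.1 (y - o) < 1 := by
        rw [inv_mul_lt_one₀ hpos]
        linarith
      linarith

end

section facets

variable {E : Type} [NormedAddCommGroup E] [NormedSpace ℝ E] [FiniteDimensional ℝ E]
variable {ι : Type} [Fintype ι]

/-- A facet of `P`: a nonempty exposed face of dimension `dim E - 1`. -/
def IsFacetOf (P F : Set E) : Prop :=
  F.Nonempty ∧ IsExposed ℝ P F ∧ finrank ℝ (vectorSpan ℝ F) + 1 = finrank ℝ E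

omit [Fintype ι] in
lemma exposed_fc (f : ι → E →ₗ[ℝ] ℝ) (b : ι → ℝ) (i : ι) : IsExposed ℝ (hp f b) (fc f b i) := by
  rintro ⟨x0, hx0⟩
  refine ⟨LinearMap.toContinuousLinearMap (f i), ?_⟩
  ext x
  constructor
  · rintro ⟨hx, hxi⟩
    refine ⟨hx, fun y hy => ?_⟩
    change f i y ≤ f i x
    rw [hxi]; exact hy i
  · rintro ⟨hx, hxi⟩
    refine ⟨hx, le_antisymm (hx i) ?_⟩
    have := hxi x0 hx0.1
    change f i x0 ≤ f i x at this
    rw [hx0.2] at this
    exact this

lemma vectorSpan_fc_le (f : ι → E →ₗ[ℝ] ℝ) (b : ι → ℝ) (i : ι) :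
    vectorSpan ℝ (fc f b i) ≤ LinearMap.ker (f i) := by
  rw [vectorSpan_def, Submodule.span_le]
  rintro _ ⟨x, hx, y, hy, rfl⟩
  change f i (x - y) = 0
  rw [map_sub, hx.2, hy.2, sub_self]

lemma vectorSpan_fc (f : ι → E →ₗ[ℝ] ℝ) (b : ι → ℝ) (i : ι) (z : E) (hz : f i z = b i)
    (hz' : ∀ j, j ≠ i → f j z < b j) : vectorSpan ℝ (fc f b i) = LinearMap.ker (f i) := by
  have hzmem : z ∈ hp f b := by
    intro j
    by_cases hj : j = i
    · rw [hj, hz]
    · exact (hz' j hj).le
  apply le_antisymm (vectorSpan_fc_le f b i)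
  intro u hu
  have h1 := eventually_mem_hp f b z u hzmem (by
    intro j hj
    by_cases hji : j = i
    · rw [hji]; exact hu
    · exact absurd hj (hz' j hji).ne)
  obtain ⟨t, ht1, htpos⟩ := ((h1.filter_mono nhdsWithin_le_nhds).and
      (self_mem_nhdsWithin : Set.Ioi (0:ℝ) ∈ 𝓝[>] 0)).exists
  have htne : t ≠ 0 := (Set.mem_Ioi.mp htpos).ne'
  have h2 : z + t • u ∈ fc f b i := by
    refine ⟨ht1, ?_⟩
    rw [map_add, map_smul, LinearMap.mem_ker.mp hu, smul_zero, add_zero, hz]
  have h3 := vsub_mem_vectorSpan ℝ h2 (⟨hzmem, hz⟩ : z ∈ fc f b i)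
  rw [vsub_eq_sub, add_sub_cancel_left] at h3
  have h4 := Submodule.smul_mem _ t⁻¹ h3
  rwa [smul_smul, inv_mul_cancel₀ htne, one_smul] at h4

lemma isFacet_fc (f : ι → E →ₗ[ℝ] ℝ) (b : ι → ℝ) (i : ι) (hfi : f i ≠ 0) (z : E)
    (hz : f i z = b i) (hz' : ∀ j, j ≠ i → f j z < b j) : IsFacetOf (hp f b) (fc f b i) := by
  have hzmem : z ∈ hp f b := by
    intro j
    by_cases hj : j = i
    · rw [hj, hz]
    · exact (hz' j hj).le
  refine ⟨⟨z, hzmem, hz⟩, exposed_fc f b i, ?_⟩
  rw [vectorSpan_fc f b i z hz hz']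
  exact Module.Dual.finrank_ker_add_one_of_ne_zero hfi

lemma facet_eq_fc (f : ι → E →ₗ[ℝ] ℝ) (b : ι → ℝ) (hf : ∀ i, f i ≠ 0) (o : E)
    (ho : ∀ i, f i o < b i) (F : Set E) (hF : IsFacetOf (hp f b) F) :
    ∃ i, F = fc f b i := by
  obtain ⟨hFne, hFexp, hFdim⟩ := hF
  obtain ⟨l, hl⟩ := hFexp hFne
  have hFsub : F ⊆ hp f b := by rw [hl]; exact fun x hx => hx.1
  have hFconv : Convex ℝ F := hFexp.convex (hp_convex f b)
  -- some inequality is an equality on F
  have hex : ∃ i, F ⊆ fc f b i := by
    by_contra hcon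
    push Not at hcon
    have h1 : ∀ i, ∃ x ∈ F, f i x < b i := by
      intro i
      obtain ⟨x, hx, hxi⟩ := Set.not_subset.mp (hcon i)
      refine ⟨x, hx, lt_of_le_of_ne (hFsub hx i) (fun h => hxi ⟨hFsub hx, h⟩)⟩
    choose xs hxs hxs' using h1
    -- a point of F in the interior of P
    have hxbar : ∃ x ∈ F, ∀ i, f i x < b i := by
      by_cases hι : Nonempty ι
      · have hcard : (0 : ℝ) < Fintype.card ι := by exact_mod_cast Fintype.card_pos
        refine ⟨∑ i, (1 / (Fintype.card ι : ℝ)) • xs i, ?_, ?_⟩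
        · apply hFconv.sum_mem (fun _ _ => by positivity) _ (fun i _ => hxs i)
          rw [Finset.sum_const, Finset.card_univ, nsmul_eq_mul]
          field_simp
        · intro j
          rw [map_sum]
          have h2 : b j = ∑ i : ι, (1 / (Fintype.card ι : ℝ)) * b j := by
            rw [Finset.sum_const, Finset.card_univ, nsmul_eq_mul]
            field_simp
          rw [h2]
          apply Finset.sum_lt_sum
          · intro i _
            rw [map_smul, smul_eq_mul]
            exact mul_le_mul_of_nonneg_left (hFsub (hxs i) j) (by positivity)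
          · refine ⟨j, Finset.mem_univ _, ?_⟩
            rw [map_smul, smul_eq_mul]
            exact mul_lt_mul_of_pos_left (hxs' j) (by positivity)
      · obtain ⟨x, hx⟩ := hFne
        exact ⟨x, hx, fun i => absurd ⟨i⟩ hι⟩
    obtain ⟨x, hxF, hx⟩ := hxbar
    -- then l = 0
    have hl0 : ∀ u, l u = 0 := by
      have key : ∀ u, l u ≤ 0 := by
        intro u
        have h1 := eventually_mem_hp f b x u (fun i => (hx i).le)
          (fun i hi => absurd hi (hx i).ne)
        obtain ⟨t, ht1, htpos⟩ := ((h1.filter_mono nhdsWithin_le_nhds).and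
          (self_mem_nhdsWithin : Set.Ioi (0:ℝ) ∈ 𝓝[>] 0)).exists
        rw [hl] at hxF
        have h2 := hxF.2 _ ht1
        rw [map_add, map_smul, smul_eq_mul] at h2
        have h3 : t * l u ≤ 0 := by linarith
        exact nonpos_of_mul_nonpos_right h3 htpos
      intro u
      have h1 := key u
      have h2 := key (-u)
      rw [map_neg] at h2
      linarith
    have hFP : F = hp f b := by
      rw [hl]
      ext y
      simp [hl0]
    -- dimension contradiction
    have hdim : vectorSpan ℝ F = ⊤ := by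
      rw [eq_top_iff]
      intro u _
      have h1 := eventually_mem_hp f b o u (fun i => (ho i).le)
        (fun i hi => absurd hi (ho i).ne)
      obtain ⟨t, ht1, htpos⟩ := ((h1.filter_mono nhdsWithin_le_nhds).and
        (self_mem_nhdsWithin : Set.Ioi (0:ℝ) ∈ 𝓝[>] 0)).exists
      have htne : t ≠ 0 := (Set.mem_Ioi.mp htpos).ne'
      rw [hFP]
      have h3 := vsub_mem_vectorSpan ℝ ht1 (show o ∈ hp f b from fun i => (ho i).le)
      rw [vsub_eq_sub, add_sub_cancel_left] at h3
      have h4 := Submodule.smul_mem _ t⁻¹ h3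
      rwa [smul_smul, inv_mul_cancel₀ htne, one_smul] at h4
    rw [hdim, finrank_top] at hFdim
    omega
  obtain ⟨i, hi⟩ := hex
  refine ⟨i, Set.Subset.antisymm hi ?_⟩
  -- the vector span of F is the kernel of f i
  have hspan : vectorSpan ℝ F = LinearMap.ker (f i) := by
    apply Submodule.eq_of_le_of_finrank_eq ((vectorSpan_mono ℝ hi).trans (vectorSpan_fc_le f b i))
    have h1 := Module.Dual.finrank_ker_add_one_of_ne_zero (hf i)
    omega
  have hlker : ∀ u ∈ LinearMap.ker (f i), l u = 0 := by
    rw [← hspan]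
    have hle : vectorSpan ℝ F ≤ LinearMap.ker (l : E →ₗ[ℝ] ℝ) := by
      rw [vectorSpan_def, Submodule.span_le]
      rintro _ ⟨x, hx, y, hy, rfl⟩
      change l (x - y) = 0
      rw [map_sub]
      rw [hl] at hx hy
      have h1 := hx.2 y hy.1
      have h2 := hy.2 x hx.1
      linarith
    intro u hu
    exact hle hu
  intro x hx
  obtain ⟨x0, hx0⟩ := hFne
  have hx0' := hi hx0
  rw [hl]
  refine ⟨hx.1, fun y hy => ?_⟩
  have h1 : l (x - x0) = 0 := by
    apply hlker
    rw [LinearMap.mem_ker, map_sub, hx.2, hx0'.2, sub_self]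
  rw [map_sub] at h1
  rw [hl] at hx0
  have := hx0.2 y hy
  linarith

end facets

end Pool.Agent.Convex97
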