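import Mathlib
import Pool.Agent.Convex97.Polytope

set_option autoImplicit false

/-!
Polytopes with many pairwise disjoint facets, built from two gadgets.
-/

namespace Pool.Agent.Convex97

open Module Finset

/-- signs -/
def sg (s : Bool) : ℝ := if s then 1 else -1

lemma sg_sq (s : Bool) : sg s * sg s = 1 := by cases s <;> simp [sg]

lemma sg_not (s : Bool) : sg (!s) = - sg s := by cases s <;> simp [sg]

lemma sg_cases (s t : Bool) : s = t ∧ sg s * sg t = 1 ∨ s ≠ t ∧ sg s * sg t = -1 := by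
  cases s <;> cases t <;> simp [sg]

/-! ### Real inequalities for the polygon -/

section ineq

lemma poly_le (n j : ℕ) (x y s : ℝ)
    (h1 : s * (y + (2 * ((j : ℝ) - n) + 1) * x) ≤ ((n : ℝ) + 1) ^ 2 + ((j : ℝ) - n) * ((j : ℝ) - n + 1))
    (h2 : s * (y + (2 * ((j : ℝ) - n) - 1) * x) ≤ ((n : ℝ) + 1) ^ 2 + ((j : ℝ) - n) * ((j : ℝ) - n - 1)) :
    s * (y + 2 * ((j : ℝ) - n) * x) ≤ ((n : ℝ) + 1) ^ 2 + ((j : ℝ) - n) ^ 2 := by
  nlinarith [h1, h2]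

lemma poly_close (n j : ℕ) (x y s : ℝ)
    (h1 : s * (y + (2 * ((j : ℝ) - n) + 1) * x) ≤ ((n : ℝ) + 1) ^ 2 + ((j : ℝ) - n) * ((j : ℝ) - n + 1))
    (h2 : s * (y + (2 * ((j : ℝ) - n) - 1) * x) ≤ ((n : ℝ) + 1) ^ 2 + ((j : ℝ) - n) * ((j : ℝ) - n - 1))
    (h3 : ((n : ℝ) + 1) ^ 2 + ((j : ℝ) - n) ^ 2 - 1/4 ≤ s * (y + 2 * ((j : ℝ) - n) * x)) :
    (j : ℝ) - n - 1/4 ≤ s * x ∧ s * x ≤ (j : ℝ) - n + 1/4 := by
  constructor <;> nlinarith [h1, h2, h3]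

/-- integers at distance less than one are equal -/
lemma nat_eq_of_close (a b : ℕ) (h1 : (a : ℝ) - b < 1) (h2 : (b : ℝ) - a < 1) : a = b := by
  have h3 : ((a : ℤ) : ℝ) - (b : ℤ) < 1 := by exact_mod_cast h1
  have h4 : ((b : ℤ) : ℝ) - (a : ℤ) < 1 := by exact_mod_cast h2
  have h5 : (a : ℤ) - b < 1 := by exact_mod_cast h3
  have h6 : (b : ℤ) - a < 1 := by exact_mod_cast h4
  omega

lemma prod_succ_nonneg (a : ℤ) : (0 : ℝ) ≤ (a : ℝ) * ((a : ℝ) + 1) := by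
  have h : 0 ≤ a * (a + 1) := by
    rcases le_or_gt 0 a with h | h
    · positivity
    · have h1 : a ≤ 0 := by omega
      have h2 : a + 1 ≤ 0 := by omega
      exact mul_nonneg_of_nonpos_of_nonpos h1 h2
  exact_mod_cast h

end ineq

/-- The index of a polygon constraint. -/
abbrev PI (n : ℕ) := Fin (2 * n + 2) × Bool

/-- The index of a polygon vertex that is cut off. -/
abbrev PW (n : ℕ) := Fin (2 * n + 1) × Bool

section poly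

variable {E : Type} [NormedAddCommGroup E] [NormedSpace ℝ E]

/-- Polygon constraints in the coordinates `X`, `Y` (linear functionals on `E`). -/
def pf (n : ℕ) (X Y : E →ₗ[ℝ] ℝ) (i : PI n) : E →ₗ[ℝ] ℝ :=
  sg i.2 • (Y + (2 * ((i.1 : ℕ) : ℝ) - 2 * n - 1) • X)

/-- right-hand sides -/
def pb (n : ℕ) (i : PI n) : ℝ :=
  ((n : ℝ) + 1) ^ 2 + (((i.1 : ℕ) : ℝ) - n - 1) * (((i.1 : ℕ) : ℝ) - n)

/-- Cutting functionals. -/
def pg (n : ℕ) (X Y : E →ₗ[ℝ] ℝ) (w : PW n) : E →ₗ[ℝ] ℝ :=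
  sg w.2 • (Y + (2 * (((w.1 : ℕ) : ℝ) - n)) • X)

/-- their maxima on the polygon -/
def pm (n : ℕ) (w : PW n) : ℝ := ((n : ℝ) + 1) ^ 2 + (((w.1 : ℕ) : ℝ) - n) ^ 2

lemma pf_apply (n : ℕ) (X Y : E →ₗ[ℝ] ℝ) (i : PI n) (z : E) :
    pf n X Y i z = sg i.2 * (Y z + (2 * ((i.1 : ℕ) : ℝ) - 2 * n - 1) * X z) := by
  simp [pf]
  ring

lemma pg_apply (n : ℕ) (X Y : E →ₗ[ℝ] ℝ) (w : PW n) (z : E) :
    pg n X Y w z = sg w.2 * (Y z + (2 * (((w.1 : ℕ) : ℝ) - n)) * X z) := by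
  simp [pg]
  ring

lemma lam_bounds (n : ℕ) (w : PW n) : -(n : ℝ) ≤ ((w.1 : ℕ) : ℝ) - n ∧ ((w.1 : ℕ) : ℝ) - n ≤ n := by
  have h1 : (w.1 : ℕ) ≤ 2 * n := by have := w.1.2; omega
  have h2 : ((w.1 : ℕ) : ℝ) ≤ 2 * n := by exact_mod_cast h1
  have h3 : (0 : ℝ) ≤ ((w.1 : ℕ) : ℝ) := by positivity
  constructor <;> linarith

lemma pm_ge (n : ℕ) (w : PW n) : 1 ≤ pm n w := by
  unfold pm
  have : (0 : ℝ) ≤ n := by positivity
  nlinarith [sq_nonneg (((w.1 : ℕ) : ℝ) - n)]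

lemma pb_pos (n : ℕ) (i : PI n) : 0 < pb n i := by
  unfold pb
  have h := prod_succ_nonneg (((i.1 : ℕ) : ℤ) - n - 1)
  push_cast at h
  have h2 : (((i.1 : ℕ) : ℝ) - n - 1) * (((i.1 : ℕ) : ℝ) - n - 1 + 1) =
    (((i.1 : ℕ) : ℝ) - n - 1) * (((i.1 : ℕ) : ℝ) - n) := by ring
  rw [h2] at h
  have : (0 : ℝ) ≤ n := by positivity
  nlinarith

/-- the two polygon constraints at a vertex -/
lemma two_constraints (n : ℕ) (X Y : E →ₗ[ℝ] ℝ) (z : E) (hz : ∀ i, pf n X Y i z ≤ pb n i)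
    (w : PW n) :
    sg w.2 * (Y z + (2 * (((w.1 : ℕ) : ℝ) - n) + 1) * X z) ≤
        ((n : ℝ) + 1) ^ 2 + (((w.1 : ℕ) : ℝ) - n) * (((w.1 : ℕ) : ℝ) - n + 1) ∧
    sg w.2 * (Y z + (2 * (((w.1 : ℕ) : ℝ) - n) - 1) * X z) ≤
        ((n : ℝ) + 1) ^ 2 + (((w.1 : ℕ) : ℝ) - n) * (((w.1 : ℕ) : ℝ) - n - 1) := by
  have hlt := w.1.2
  constructor
  · have h := hz (⟨(w.1 : ℕ) + 1, by omega⟩, w.2)
    rw [pf_apply] at h
    unfold pb at h
    push_cast at h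
    calc _ = sg w.2 * (Y z + (2 * (((w.1 : ℕ) : ℝ) + 1) - 2 * n - 1) * X z) := by ring
      _ ≤ _ := h
      _ = _ := by ring
  · have h := hz (⟨(w.1 : ℕ), by omega⟩, w.2)
    rw [pf_apply] at h
    unfold pb at h
    calc _ = sg w.2 * (Y z + (2 * ((w.1 : ℕ) : ℝ) - 2 * n - 1) * X z) := by ring
      _ ≤ _ := h
      _ = _ := by ring

lemma pg_le (n : ℕ) (X Y : E →ₗ[ℝ] ℝ) (z : E) (hz : ∀ i, pf n X Y i z ≤ pb n i) (w : PW n) :
    pg n X Y w z ≤ pm n w := by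
  obtain ⟨h1, h2⟩ := two_constraints n X Y z hz w
  rw [pg_apply]
  unfold pm
  exact poly_le n w.1 (X z) (Y z) (sg w.2) h1 h2

lemma pg_sep (n : ℕ) (X Y : E →ₗ[ℝ] ℝ) (z : E) (hz : ∀ i, pf n X Y i z ≤ pb n i) (w w' : PW n)
    (h : pm n w - 1/4 ≤ pg n X Y w z) (h' : pm n w' - 1/4 ≤ pg n X Y w' z) : w = w' := by
  obtain ⟨h1, h2⟩ := two_constraints n X Y z hz w
  obtain ⟨h1', h2'⟩ := two_constraints n X Y z hz w'
  rw [pg_apply] at h h'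
  unfold pm at h h'
  obtain ⟨c1, c2⟩ := poly_close n w.1 (X z) (Y z) (sg w.2) h1 h2 h
  obtain ⟨c1', c2'⟩ := poly_close n w'.1 (X z) (Y z) (sg w'.2) h1' h2' h'
  obtain ⟨⟨j, hj⟩, s⟩ := w
  obtain ⟨⟨j', hj'⟩, s'⟩ := w'
  simp only at *
  obtain ⟨l1, l2⟩ := lam_bounds n (⟨j, hj⟩, s)
  simp only at l1 l2
  by_cases hs : s = s'
  · subst hs
    have : j = j' := nat_eq_of_close j j' (by linarith) (by linarith)
    subst this
    rfl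
  · exfalso
    have hsg : sg s' = - sg s := by
      cases s <;> cases s' <;> simp_all [sg]
    rw [hsg] at c1' c2' h'
    -- j' - n is minus (j - n)
    have hjj : j' = 2 * n - j := by
      have h3 : j + j' = 2 * n := by
        apply nat_eq_of_close
        · push_cast; linarith
        · push_cast; linarith
      omega
    have hj2 : (j : ℝ) + j' = 2 * n := by
      have h3 : j + j' = 2 * n := by omega
      exact_mod_cast h3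
    have hj3 : (j' : ℝ) - n = -((j : ℝ) - n) := by linarith
    rw [hj3] at h'
    set a := (j : ℝ) - n with ha
    set p := sg s * X z with hp
    set q := sg s * Y z with hq
    have e1 : sg s * (Y z + 2 * a * X z) = q + 2 * a * p := by rw [hp, hq]; ring
    have e2 : -sg s * (Y z + 2 * -a * X z) = -q + 2 * a * p := by rw [hp, hq]; ring
    rw [e1] at h
    rw [e2] at h'
    have hn : (0 : ℝ) ≤ n := by positivity
    -- 2 (n+1)^2 + 2 a^2 - 1/2 ≤ 4 a p, and |p - a| ≤ 1/4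
    have e3 : 2 * ((n : ℝ) + 1) ^ 2 + 2 * a ^ 2 - 1/2 ≤ 4 * a * p := by nlinarith
    have e4 : a * (p - a) ≤ n * (1/4) := by
      rcases le_total 0 a with h0 | h0
      · nlinarith
      · nlinarith
    have e5 : a ^ 2 ≤ n ^ 2 := by
      rw [sq_le_sq, abs_of_nonneg hn]
      exact abs_le.mpr ⟨l1, l2⟩
    nlinarith

/-- A point with prescribed coordinates. -/
lemma pf_point (n : ℕ) (X Y : E →ₗ[ℝ] ℝ) (w : PW n) (z : E)
    (hX : X z = sg w.2 * (((w.1 : ℕ) : ℝ) - n))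
    (hY : Y z = sg w.2 * (((n : ℝ) + 1) ^ 2 - (((w.1 : ℕ) : ℝ) - n) ^ 2 - 1/8)) (i : PI n) :
    pf n X Y i z < pb n i := by
  rw [pf_apply, hX, hY]
  unfold pb
  obtain ⟨l1, l2⟩ := lam_bounds n w
  have hn : (0 : ℝ) ≤ n := by positivity
  set a := ((w.1 : ℕ) : ℝ) - n with ha
  set k := ((i.1 : ℕ) : ℝ) - n - 1 with hk
  have hk2 : ((i.1 : ℕ) : ℝ) - n = k + 1 := by rw [hk]; ring
  have hk3 : 2 * ((i.1 : ℕ) : ℝ) - 2 * n - 1 = 2 * k + 1 := by rw [hk]; ring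
  rw [hk2, hk3]
  have e5 : a ^ 2 ≤ n ^ 2 := by
    rw [sq_le_sq, abs_of_nonneg hn]
    exact abs_le.mpr ⟨l1, l2⟩
  have hmul : sg i.2 * (sg w.2 * (((n : ℝ) + 1) ^ 2 - a ^ 2 - 1/8) + (2 * k + 1) * (sg w.2 * a))
      = (sg i.2 * sg w.2) * (((n : ℝ) + 1) ^ 2 - a ^ 2 - 1/8 + (2 * k + 1) * a) := by ring
  rw [hmul]
  rcases sg_cases i.2 w.2 with ⟨-, h⟩ | ⟨-, h⟩
  · rw [h, one_mul]
    have hint := prod_succ_nonneg (((i.1 : ℕ) : ℤ) - n - 1 - (((w.1 : ℕ) : ℤ) - n))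
    push_cast at hint
    have hint2 : 0 ≤ (k - a) * (k - a + 1) := hint
    nlinarith
  · rw [h]
    have hint := prod_succ_nonneg (((i.1 : ℕ) : ℤ) - n - 1 + (((w.1 : ℕ) : ℤ) - n))
    push_cast at hint
    have hint2 : 0 ≤ (k + a) * (k + a + 1) := hint
    nlinarith

lemma pg_point_self (n : ℕ) (X Y : E →ₗ[ℝ] ℝ) (w : PW n) (z : E)
    (hX : X z = sg w.2 * (((w.1 : ℕ) : ℝ) - n))
    (hY : Y z = sg w.2 * (((n : ℝ) + 1) ^ 2 - (((w.1 : ℕ) : ℝ) - n) ^ 2 - 1/8)) :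
    pg n X Y w z = pm n w - 1/8 := by
  rw [pg_apply, hX, hY]
  unfold pm
  set a := ((w.1 : ℕ) : ℝ) - n with ha
  have hmul : sg w.2 * (sg w.2 * (((n : ℝ) + 1) ^ 2 - a ^ 2 - 1/8) + 2 * a * (sg w.2 * a))
      = (sg w.2 * sg w.2) * (((n : ℝ) + 1) ^ 2 - a ^ 2 - 1/8 + 2 * a * a) := by ring
  rw [hmul, sg_sq]
  ring

lemma pg_point_other (n : ℕ) (X Y : E →ₗ[ℝ] ℝ) (w w' : PW n) (hne : w' ≠ w) (z : E)
    (hX : X z = sg w.2 * (((w.1 : ℕ) : ℝ) - n))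
    (hY : Y z = sg w.2 * (((n : ℝ) + 1) ^ 2 - (((w.1 : ℕ) : ℝ) - n) ^ 2 - 1/8)) :
    pg n X Y w' z < pm n w' - 1/8 := by
  rw [pg_apply, hX, hY]
  unfold pm
  obtain ⟨l1, l2⟩ := lam_bounds n w
  have hn : (0 : ℝ) ≤ n := by positivity
  set a := ((w.1 : ℕ) : ℝ) - n with ha
  set c := ((w'.1 : ℕ) : ℝ) - n with hc
  have e5 : a ^ 2 ≤ n ^ 2 := by
    rw [sq_le_sq, abs_of_nonneg hn]
    exact abs_le.mpr ⟨l1, l2⟩
  have hmul : sg w'.2 * (sg w.2 * (((n : ℝ) + 1) ^ 2 - a ^ 2 - 1/8) + 2 * c * (sg w.2 * a))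
      = (sg w'.2 * sg w.2) * (((n : ℝ) + 1) ^ 2 - a ^ 2 - 1/8 + 2 * c * a) := by ring
  rw [hmul]
  rcases sg_cases w'.2 w.2 with ⟨h0, h⟩ | ⟨-, h⟩
  · rw [h, one_mul]
    have hac : a ≠ c := by
      intro hac
      apply hne
      have h1 : ((w'.1 : ℕ) : ℝ) = ((w.1 : ℕ) : ℝ) := by rw [ha, hc] at hac; linarith
      have h2 : (w'.1 : ℕ) = (w.1 : ℕ) := by exact_mod_cast h1
      exact Prod.ext (Fin.ext h2) h0
    have : 0 < (a - c) ^ 2 := by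
      have : a - c ≠ 0 := sub_ne_zero.mpr hac
      positivity
    nlinarith
  · rw [h]
    nlinarith [sq_nonneg (a + c)]

end poly

end Pool.Agent.Convex97
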