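import Mathlib

set_option autoImplicit false

/-!
If every set `S` of pairwise disjoint members of a finite family of nonempty sets satisfies
`|S| ≤ 2 |N(S)|`, where `N(S)` is the set of members meeting (and different from) a member of `S`,
then the family has a transversal (hitting set) with at most two thirds as many points as members.
-/

namespace Pool.Agent.Convex97

open Finset

variable {ι : Type} [DecidableEq ι]

/-- In a functional graph without loops and with in-degrees at most two there are `n/3` pairwise
disjoint edges. -/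
lemma exists_matching (ψ : ι → ι) (hne : ∀ i, ψ i ≠ i) (A : Finset ι)
    (hfib : ∀ j, (A.filter (fun i => ψ i = j)).card ≤ 2) :
    ∃ M ⊆ A, A.card ≤ 3 * M.card ∧
      ∀ i ∈ M, ∀ j ∈ M, i ≠ j → i ≠ ψ j ∧ ψ i ≠ ψ j := by
  induction A using Finset.strongInduction with
  | _ A ih =>
    rcases A.eq_empty_or_nonempty with rfl | hA
    · exact ⟨∅, by simp, by simp, by simp⟩
    -- it suffices to find `v` and a set `R` of at most three elements
    suffices h : ∃ v ∈ A, ∃ R : Finset ι, R.card ≤ 3 ∧ v ∈ R ∧
        ∀ j ∈ A \ R, j ≠ ψ v ∧ ψ j ≠ v ∧ ψ j ≠ ψ v by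
      obtain ⟨v, hvA, R, hR3, hvR, hR⟩ := h
      have hss : A \ R ⊂ A := by
        rw [Finset.ssubset_iff_subset_ne]
        refine ⟨Finset.sdiff_subset, fun h => ?_⟩
        have : v ∈ A \ R := by rw [h]; exact hvA
        exact (Finset.mem_sdiff.mp this).2 hvR
      obtain ⟨M, hMA, hMcard, hM⟩ := ih (A \ R) hss (fun j =>
        (Finset.card_le_card (Finset.filter_subset_filter _ Finset.sdiff_subset)).trans (hfib j))
      have hvM : v ∉ M := fun hv => (Finset.mem_sdiff.mp (hMA hv)).2 hvR
      refine ⟨insert v M, ?_, ?_, ?_⟩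
      · apply Finset.insert_subset hvA
        exact hMA.trans Finset.sdiff_subset
      · rw [Finset.card_insert_of_notMem hvM]
        have h1 : A.card ≤ (A \ R).card + R.card := by
          have := Finset.card_le_card (show A ⊆ (A \ R) ∪ R by
            intro x hx
            by_cases hxR : x ∈ R
            · exact Finset.mem_union_right _ hxR
            · exact Finset.mem_union_left _ (Finset.mem_sdiff.mpr ⟨hx, hxR⟩))
          exact this.trans (Finset.card_union_le _ _)
        omega
      · intro i hi j hj hij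
        rcases Finset.mem_insert.mp hi with rfl | hi' <;>
          rcases Finset.mem_insert.mp hj with rfl | hj'
        · exact absurd rfl hij
        · have := hR j (hMA hj')
          exact ⟨fun h => this.2.1 h.symm, fun h => this.2.2 h.symm⟩
        · have := hR i (hMA hi')
          exact ⟨this.1, this.2.2⟩
        · exact hM i hi' j hj' hij
    by_cases hcase : ∃ v ∈ A, ∀ j ∈ A, ψ j ≠ v
    · obtain ⟨v, hvA, hv⟩ := hcase
      refine ⟨v, hvA, insert (ψ v) (A.filter (fun i => ψ i = ψ v)), ?_, ?_, ?_⟩
      · have h1 := hfib (ψ v)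
        have h2 := Finset.card_insert_le (ψ v) (A.filter (fun i => ψ i = ψ v))
        omega
      · apply Finset.mem_insert_of_mem
        exact Finset.mem_filter.mpr ⟨hvA, rfl⟩
      · intro j hj
        have hj1 := (Finset.mem_sdiff.mp hj).1
        have hj2 := (Finset.mem_sdiff.mp hj).2
        rw [Finset.mem_insert, Finset.mem_filter, not_or, not_and] at hj2
        exact ⟨hj2.1, hv j hj1, hj2.2 hj1⟩
    · push Not at hcase
      -- ψ restricts to a permutation of A
      have hsub : A ⊆ A.image ψ := by
        intro v hv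
        obtain ⟨j, hj, hjv⟩ := hcase v hv
        exact Finset.mem_image.mpr ⟨j, hj, hjv⟩
      have hinj : Set.InjOn ψ A := by
        apply Finset.card_image_iff.mp
        apply le_antisymm Finset.card_image_le (Finset.card_le_card hsub)
      obtain ⟨v, hvA⟩ := hA
      refine ⟨v, hvA, insert v (insert (ψ v) (A.filter (fun i => ψ i = v))), ?_, ?_, ?_⟩
      · have h1 : (A.filter (fun i => ψ i = v)).card ≤ 1 := by
          rw [Finset.card_le_one]
          intro a ha b hb
          rw [Finset.mem_filter] at ha hb
          exact hinj ha.1 hb.1 (ha.2.trans hb.2.symm)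
        have h2 := Finset.card_insert_le (ψ v) (A.filter (fun i => ψ i = v))
        have h3 := Finset.card_insert_le v (insert (ψ v) (A.filter (fun i => ψ i = v)))
        omega
      · exact Finset.mem_insert_self _ _
      · intro j hj
        have hj1 := (Finset.mem_sdiff.mp hj).1
        have hj2 := (Finset.mem_sdiff.mp hj).2
        rw [Finset.mem_insert, Finset.mem_insert, Finset.mem_filter, not_or, not_or, not_and] at hj2
        exact ⟨hj2.2.1, hj2.2.2 hj1, fun h => hj2.1 (hinj hj1 hvA h)⟩

/-- Hall: from the Hall-type condition on independent sets to a map with fibres of size `≤ 2`. -/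
lemma exists_psi [Fintype ι] (r : ι → ι → Prop) [DecidableRel r] (hsymm : ∀ i j, r i j → r j i)
    (hH : ∀ S : Finset ι, (∀ i ∈ S, ∀ j ∈ S, ¬ r i j) →
      S.card ≤ 2 * (univ.filter (fun j => ∃ i ∈ S, r i j)).card) :
    ∃ ψ : ι → ι, (∀ i, r i (ψ i)) ∧ ∀ j, (univ.filter (fun i => ψ i = j)).card ≤ 2 := by
  classical
  let t : ι → Finset (ι × Bool) := fun i => (univ.filter (fun j => r i j)) ×ˢ univ
  have hcard : ∀ S : Finset ι, S.card ≤ (S.biUnion t).card := by
    intro S
    have h1 : S.biUnion t = (univ.filter (fun j => ∃ i ∈ S, r i j)) ×ˢ (univ : Finset Bool) := by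
      ext ⟨j, c⟩
      simp [t]
    rw [h1, Finset.card_product, Finset.card_univ, Fintype.card_bool, mul_comm]
    -- reduce to independent sets
    set N := univ.filter (fun j => ∃ i ∈ S, r i j) with hN
    have h2 := hH (S \ N) (by
      intro i hi j hj hij
      rw [Finset.mem_sdiff] at hi hj
      apply hj.2
      rw [hN, Finset.mem_filter]
      exact ⟨Finset.mem_univ _, i, hi.1, hij⟩)
    have h3 : univ.filter (fun j => ∃ i ∈ S \ N, r i j) ⊆ N \ S := by
      intro j hj
      rw [Finset.mem_filter] at hj
      obtain ⟨_, i, hi, hij⟩ := hj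
      rw [Finset.mem_sdiff] at hi ⊢
      refine ⟨?_, fun hjS => ?_⟩
      · rw [hN, Finset.mem_filter]
        exact ⟨Finset.mem_univ _, i, hi.1, hij⟩
      · apply hi.2
        rw [hN, Finset.mem_filter]
        exact ⟨Finset.mem_univ _, j, hjS, hsymm i j hij⟩
    have h4 := Finset.card_le_card h3
    have h5 : S.card = (S \ N).card + (S ∩ N).card := by
      rw [Finset.card_sdiff_add_card_inter]
    have h6 : N.card = (N \ S).card + (S ∩ N).card := by
      rw [Finset.inter_comm, Finset.card_sdiff_add_card_inter]
    omega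
  obtain ⟨g, hginj, hg⟩ := (Finset.all_card_le_biUnion_card_iff_exists_injective t).mp hcard
  refine ⟨fun i => (g i).1, ?_, ?_⟩
  · intro i
    have := hg i
    simp only [t, Finset.mem_product, Finset.mem_filter] at this
    exact this.1.2
  · intro j
    have h1 : (univ.filter (fun i => (g i).1 = j)).image g ⊆ {j} ×ˢ (univ : Finset Bool) := by
      intro x hx
      obtain ⟨i, hi, rfl⟩ := Finset.mem_image.mp hx
      rw [Finset.mem_filter] at hi
      rw [Finset.mem_product]
      exact ⟨Finset.mem_singleton.mpr hi.2, Finset.mem_univ _⟩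
    have h2 := Finset.card_le_card h1
    rw [Finset.card_image_of_injective _ hginj, Finset.card_product, Finset.card_singleton,
      Finset.card_univ, Fintype.card_bool] at h2
    simpa using h2

/-- The transversal with at most two thirds as many points as sets. -/
theorem exists_transversal [Fintype ι] {X : Type} (F : ι → Set X) (hne : ∀ i, (F i).Nonempty)
    (hH : ∀ S : Finset ι, (∀ i ∈ S, ∀ j ∈ S, i ≠ j → ¬ (F i ∩ F j).Nonempty) →
      ∃ N : Finset ι, (∀ j ∈ N, ∃ i ∈ S, i ≠ j ∧ (F i ∩ F j).Nonempty) ∧ S.card ≤ 2 * N.card) :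
    ∃ K : Finset X, (∀ x ∈ K, ∃ i, x ∈ F i) ∧ (∀ i, ∃ x ∈ K, x ∈ F i) ∧
      3 * K.card ≤ 2 * Fintype.card ι := by
  classical
  let r : ι → ι → Prop := fun i j => i ≠ j ∧ (F i ∩ F j).Nonempty
  obtain ⟨ψ, hψ, hψfib⟩ := exists_psi r (fun i j h => ⟨h.1.symm, by rw [Set.inter_comm]; exact h.2⟩)
    (by
      intro S hS
      obtain ⟨N, hN, hcard⟩ := hH S (fun i hi j hj hij hne => hS i hi j hj ⟨hij, hne⟩)
      refine hcard.trans (Nat.mul_le_mul_left 2 (Finset.card_le_card ?_))
      intro j hj
      rw [Finset.mem_filter]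
      exact ⟨Finset.mem_univ _, hN j hj⟩)
  obtain ⟨M, -, hMcard, hM⟩ := exists_matching ψ (fun i => (hψ i).1.symm) univ hψfib
  -- choose the points
  choose p hp using fun i => (hψ i).2
  choose q hq using hne
  set U := univ \ (M ∪ M.image ψ) with hU
  have hdisj : Disjoint M (M.image ψ) := by
    rw [Finset.disjoint_left]
    intro i hi hi2
    obtain ⟨j, hj, hji⟩ := Finset.mem_image.mp hi2
    by_cases hij : i = j
    · subst hij
      exact (hψ i).1 hji.symm
    · exact (hM i hi j hj hij).1 hji.symm
  have hinj : Set.InjOn ψ M := by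
    intro i hi j hj hij
    by_contra hne
    exact (hM i hi j hj hne).2 hij
  have hUcard : U.card + 2 * M.card = Fintype.card ι := by
    have h1 : (M ∪ M.image ψ).card = 2 * M.card := by
      rw [Finset.card_union_of_disjoint hdisj, Finset.card_image_of_injOn hinj]; ring
    have h2 : U.card = Fintype.card ι - (M ∪ M.image ψ).card := by
      rw [hU, Finset.card_sdiff_of_subset (Finset.subset_univ _), Finset.card_univ]
    have h3 : (M ∪ M.image ψ).card ≤ Fintype.card ι := Finset.card_le_univ _
    omega
  refine ⟨M.image p ∪ U.image q, ?_, ?_, ?_⟩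
  · intro x hx
    rcases Finset.mem_union.mp hx with h | h
    · obtain ⟨i, _, rfl⟩ := Finset.mem_image.mp h
      exact ⟨i, (hp i).1⟩
    · obtain ⟨i, _, rfl⟩ := Finset.mem_image.mp h
      exact ⟨i, hq i⟩
  · intro i
    by_cases hi : i ∈ M
    · exact ⟨p i, Finset.mem_union_left _ (Finset.mem_image_of_mem _ hi), (hp i).1⟩
    · by_cases hi2 : i ∈ M.image ψ
      · obtain ⟨j, hj, rfl⟩ := Finset.mem_image.mp hi2
        exact ⟨p j, Finset.mem_union_left _ (Finset.mem_image_of_mem _ hj), (hp j).2⟩
      · have hiU : i ∈ U := by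
          rw [hU, Finset.mem_sdiff, Finset.mem_union, not_or]
          exact ⟨Finset.mem_univ _, hi, hi2⟩
        exact ⟨q i, Finset.mem_union_right _ (Finset.mem_image_of_mem _ hiU), hq i⟩
  · have h1 : (M.image p ∪ U.image q).card ≤ M.card + U.card :=
      (Finset.card_union_le _ _).trans (Nat.add_le_add Finset.card_image_le Finset.card_image_le)
    rw [Finset.card_univ] at hMcard
    omega

end Pool.Agent.Convex97
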