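import Mathlib

set_option autoImplicit false

namespace Pool.Agent.Convex97

open Module Finset

/-- In a finite-dimensional space a point lies in the interior of the convex hull of a nonempty
finite set iff every nonzero linear functional is strictly larger at some point of the set. -/
theorem mem_interior_convexHull_iff {V : Type} [NormedAddCommGroup V] [NormedSpace ℝ V]
    [FiniteDimensional ℝ V] (A : Finset V) (hA : A.Nonempty) (x : V) :
    x ∈ interior (convexHull ℝ (A : Set V)) ↔
      ∀ f : V →ₗ[ℝ] ℝ, f ≠ 0 → ∃ a ∈ A, f x < f a := by
  constructor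
  · intro hx f hf
    by_contra hcon
    push Not at hcon
    have h1 : ∀ y ∈ convexHull ℝ (A : Set V), f y ≤ f x := by
      intro y hy
      have hsub : convexHull ℝ (A : Set V) ⊆ {y | f y ≤ f x} :=
        convexHull_min (fun a ha => hcon a ha) (convex_halfSpace_le f.isLinear _)
      exact hsub hy
    obtain ⟨v, hv⟩ : ∃ v, 0 < f v := by
      obtain ⟨v, hv⟩ : ∃ v, f v ≠ 0 := by
        by_contra h
        push Not at h
        exact hf (LinearMap.ext h)
      rcases lt_or_gt_of_ne hv with h | h
      · exact ⟨-v, by rw [map_neg]; linarith⟩
      · exact ⟨v, h⟩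
    have hcont : Continuous (fun t : ℝ => x + t • v) := by fun_prop
    have hmem : ∀ᶠ t in nhds (0 : ℝ), x + t • v ∈ interior (convexHull ℝ (A : Set V)) := by
      apply hcont.continuousAt.eventually
      simp only [zero_smul, add_zero]
      exact isOpen_interior.mem_nhds hx
    obtain ⟨t, ht, htpos⟩ := ((hmem.filter_mono nhdsWithin_le_nhds).and
      (self_mem_nhdsWithin : Set.Ioi (0:ℝ) ∈ nhdsWithin 0 (Set.Ioi 0))).exists
    have h2 := h1 _ (interior_subset ht)
    rw [map_add, map_smul, smul_eq_mul] at h2
    have : 0 < t * f v := mul_pos htpos hv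
    linarith
  · intro h
    by_contra hx
    by_cases hspan : affineSpan ℝ (A : Set V) = ⊤
    · have hint : (interior (convexHull ℝ (A : Set V))).Nonempty :=
        interior_convexHull_nonempty_iff_affineSpan_eq_top.mpr hspan
      obtain ⟨f, hf, hfa⟩ := geometric_hahn_banach_of_nonempty_interior_point
        (convex_convexHull ℝ (A : Set V)) hx hint
      have hf' : (f : V →ₗ[ℝ] ℝ) ≠ 0 := by
        intro h0
        apply hf
        ext v
        exact congrArg (fun g : V →ₗ[ℝ] ℝ => g v) h0
      obtain ⟨a, ha, hlt⟩ := h f hf'
      have := hfa a (subset_convexHull ℝ _ ha)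
      exact absurd hlt (not_lt.mpr this)
    · have hne : (A : Set V).Nonempty := by exact_mod_cast hA
      rw [AffineSubspace.affineSpan_eq_top_iff_vectorSpan_eq_top_of_nonempty ℝ _ _ hne] at hspan
      obtain ⟨f, hf, hker⟩ := Submodule.exists_le_ker_of_lt_top _ (lt_top_iff_ne_top.mpr hspan)
      obtain ⟨a0, ha0⟩ := hA
      have hconst : ∀ a ∈ A, f a = f a0 := by
        intro a ha
        have h1 : a - a0 ∈ vectorSpan ℝ (A : Set V) := vsub_mem_vectorSpan ℝ ha ha0
        have h2 : f (a - a0) = 0 := hker h1
        rw [map_sub] at h2
        linarith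
      obtain ⟨a, ha, h1⟩ := h f hf
      obtain ⟨b, hb, h2⟩ := h (-f) (by simpa using hf)
      rw [hconst a ha] at h1
      simp only [LinearMap.neg_apply] at h2
      rw [hconst b hb] at h2
      linarith

/-- Steinitz' theorem for positively spanning families, in dual form: if no nonzero functional is
nonpositive on all `v i`, `i ∈ X`, then this already holds for some subfamily of at most
`2 * dim V` members. -/
theorem steinitz_idx {ι : Type} [DecidableEq ι] (X : Finset ι) :
    ∀ (n : ℕ) (V : Type) [NormedAddCommGroup V] [NormedSpace ℝ V] [FiniteDimensional ℝ V]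
      (v : ι → V), finrank ℝ V = n →
      (∀ f : V →ₗ[ℝ] ℝ, f ≠ 0 → ∃ i ∈ X, 0 < f (v i)) →
      ∃ C ⊆ X, C.card ≤ 2 * n ∧ ∀ f : V →ₗ[ℝ] ℝ, f ≠ 0 → ∃ i ∈ C, 0 < f (v i) := by
  intro n
  induction n using Nat.strong_induction_on with
  | _ n ih =>
    intro V _ _ _ v hn h
    rcases Nat.eq_zero_or_pos n with hn0 | hn0
    · refine ⟨∅, by simp, by simp, ?_⟩
      intro f hf
      exfalso
      apply hf
      have : Subsingleton V := finrank_zero_iff.mp (by rw [hn, hn0])
      ext x
      rw [Subsingleton.elim x 0, map_zero, map_zero]
    · classical
      set X0 := X.filter (fun i => v i ≠ 0) with hX0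
      -- zero is in the hull of the nonzero vectors
      have h0 : (0 : V) ∈ convexHull ℝ (v '' (X0 : Set ι)) := by
        by_contra hcon
        have hclosed : IsClosed (convexHull ℝ (v '' (X0 : Set ι))) :=
          ((X0.finite_toSet.image v).isCompact_convexHull ℝ).isClosed
        obtain ⟨f, u, hu0, hu⟩ := geometric_hahn_banach_point_closed
          (convex_convexHull ℝ (v '' (X0 : Set ι))) hclosed hcon
        rw [map_zero] at hu0
        by_cases hX0e : X0.Nonempty
        · obtain ⟨i0, hi0⟩ := hX0e
          have hpos : ∀ i ∈ X0, 0 < f (v i) := fun i hi =>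
            hu0.trans (hu _ (subset_convexHull ℝ _ ⟨i, hi, rfl⟩))
          have hf' : -(f : V →ₗ[ℝ] ℝ) ≠ 0 := by
            intro h0
            have := congrArg (fun g : V →ₗ[ℝ] ℝ => g (v i0)) h0
            simp only [LinearMap.neg_apply, LinearMap.zero_apply, neg_eq_zero] at this
            exact (hpos i0 hi0).ne' this
          obtain ⟨i, hi, hlt⟩ := h _ hf'
          simp only [LinearMap.neg_apply] at hlt
          by_cases hvi : v i = 0
          · rw [hvi, map_zero] at hlt
            simp at hlt
          · have : i ∈ X0 := by rw [hX0, mem_filter]; exact ⟨hi, hvi⟩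
            have h3 := hpos i this
            have h4 : (f : V →ₗ[ℝ] ℝ) (v i) = f (v i) := rfl
            rw [h4] at hlt
            linarith
        · -- all vectors are zero
          have hV : Nontrivial V := by
            rw [← Module.finrank_pos_iff (R := ℝ)]; omega
          obtain ⟨x, hx⟩ := exists_ne (0 : V)
          obtain ⟨g, hg⟩ := SeparatingDual.exists_ne_zero (R := ℝ) hx
          have hg' : (g : V →ₗ[ℝ] ℝ) ≠ 0 := by
            intro h0
            exact hg (congrArg (fun g : V →ₗ[ℝ] ℝ => g x) h0)
          obtain ⟨i, hi, hlt⟩ := h _ hg'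
          apply hX0e
          refine ⟨i, ?_⟩
          rw [hX0, mem_filter]
          refine ⟨hi, ?_⟩
          intro hvi
          rw [hvi, map_zero] at hlt
          exact lt_irrefl _ hlt
      obtain ⟨κ, _, z, w, hz, haff, hw, hw1, hwz⟩ :=
        eq_pos_convex_span_of_mem_convexHull (𝕜 := ℝ) h0
      have hidx : ∀ j : κ, ∃ i : ι, i ∈ X0 ∧ v i = z j := by
        intro j
        obtain ⟨i, hi, hi2⟩ := hz (Set.mem_range_self j)
        exact ⟨i, hi, hi2⟩
      choose idx hidx1 hidx2 using hidx
      have hκ : Nonempty κ := by
        by_contra hκ
        rw [not_nonempty_iff] at hκ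
        simp at hw1
      -- the span of the z j
      set L := Submodule.span ℝ (Set.range z) with hL
      have hLeq : L = vectorSpan ℝ (Set.range z) := by
        apply le_antisymm
        · rw [hL, Submodule.span_le]
          rintro _ ⟨j, rfl⟩
          have h1 : z j = ∑ i, w i • (z j - z i) := by
            simp_rw [smul_sub]
            rw [Finset.sum_sub_distrib, ← Finset.sum_smul, hw1, one_smul, hwz, sub_zero]
          rw [h1]
          apply Submodule.sum_mem
          intro i _
          apply Submodule.smul_mem
          exact vsub_mem_vectorSpan ℝ (Set.mem_range_self j) (Set.mem_range_self i)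
        · rw [vectorSpan_def, Submodule.span_le]
          rintro _ ⟨a, ⟨i, rfl⟩, b, ⟨j, rfl⟩, rfl⟩
          apply Submodule.sub_mem
          · exact Submodule.subset_span ⟨i, rfl⟩
          · exact Submodule.subset_span ⟨j, rfl⟩
      have hdimL : finrank ℝ L + 1 = Fintype.card κ := by
        rw [hLeq]
        exact haff.finrank_vectorSpan_add_one
      have hLpos : 1 ≤ finrank ℝ L := by
        obtain ⟨j⟩ := hκ
        have hzj : z j ≠ 0 := by
          rw [← hidx2 j]
          exact (mem_filter.mp (hidx1 j)).2
        have hzL : z j ∈ L := Submodule.subset_span ⟨j, rfl⟩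
        have : L ≠ ⊥ := by
          intro h
          rw [h, Submodule.mem_bot] at hzL
          exact hzj hzL
        have := Submodule.one_le_finrank_iff.mpr this
        exact this
      obtain ⟨W, hW⟩ := Submodule.exists_isCompl L
      have hdimW : finrank ℝ W + finrank ℝ L = n := by
        rw [← hn, add_comm]
        exact Submodule.finrank_add_eq_of_isCompl hW
      set p := W.projectionOnto L hW.symm with hp
      have hpsurj : Function.Surjective p := Submodule.projectionOnto_surjective _
      have hih := ih (finrank ℝ W) (by omega) W (fun i => p (v i)) rfl (by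
        intro f hf
        have hfp : f.comp p ≠ 0 := by
          intro h0
          apply hf
          ext x
          obtain ⟨y, rfl⟩ := hpsurj x
          exact congrArg (fun g : V →ₗ[ℝ] ℝ => g y) h0
        exact h _ hfp)
      obtain ⟨C', hC'X, hC'card, hC'⟩ := hih
      refine ⟨Finset.univ.image idx ∪ C', ?_, ?_, ?_⟩
      · apply Finset.union_subset _ hC'X
        intro i hi
        obtain ⟨j, _, rfl⟩ := Finset.mem_image.mp hi
        exact (mem_filter.mp (hidx1 j)).1
      · have h1 : (Finset.univ.image idx ∪ C').card ≤ Fintype.card κ + C'.card := by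
          refine (Finset.card_union_le _ _).trans ?_
          have := Finset.card_image_le (s := (Finset.univ : Finset κ)) (f := idx)
          rw [Finset.card_univ] at this
          omega
        omega
      · intro f hf
        by_cases hfL : ∀ l ∈ L, f l = 0
        · have hfW : f.comp W.subtype ≠ 0 := by
            intro h0
            apply hf
            ext x
            have h1 : x = p x + (x - p x) := by abel
            have h2 : x - p x ∈ L := Submodule.sub_projection_mem hW.symm x
            have h3 : f x = f (p x) + f (x - p x) := by
              rw [← map_add]; congr 1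
            rw [h3, hfL _ h2, add_zero]
            exact congrArg (fun g : W →ₗ[ℝ] ℝ => g (p x)) h0
          obtain ⟨i, hi, hlt⟩ := hC' _ hfW
          refine ⟨i, Finset.mem_union_right _ hi, ?_⟩
          have h2 : v i - p (v i) ∈ L := Submodule.sub_projection_mem hW.symm (v i)
          have h3 := hfL _ h2
          rw [map_sub] at h3
          simp only [LinearMap.comp_apply, Submodule.subtype_apply] at hlt
          linarith
        · have hfz : ∃ j, f (z j) ≠ 0 := by
            by_contra hcon
            push Not at hcon
            apply hfL
            intro l hl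
            have : L ≤ LinearMap.ker f := by
              rw [hL, Submodule.span_le]
              rintro _ ⟨j, rfl⟩
              exact hcon j
            exact this hl
          have hsum : ∑ j, w j * f (z j) = 0 := by
            have := congrArg f hwz
            rw [map_sum, map_zero] at this
            simpa using this
          have hex : ∃ j, 0 < f (z j) := by
            by_contra hcon
            push Not at hcon
            obtain ⟨j, hj⟩ := hfz
            have hlt : f (z j) < 0 := lt_of_le_of_ne (hcon j) hj
            have : ∑ j, w j * f (z j) < 0 := by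
              apply Finset.sum_neg' (fun i _ => mul_nonpos_of_nonneg_of_nonpos (hw i).le (hcon i))
              exact ⟨j, Finset.mem_univ _, mul_neg_of_pos_of_neg (hw j) hlt⟩
            linarith
          obtain ⟨j, hj⟩ := hex
          refine ⟨idx j, Finset.mem_union_left _ (Finset.mem_image_of_mem _ (Finset.mem_univ _)), ?_⟩
          rw [hidx2 j]
          exact hj

end Pool.Agent.Convex97
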