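import Mathlib
import Pool.Agent.Convex97.Steinitz

set_option autoImplicit false

namespace Pool.Agent.Convex97

open Module Finset

lemma exists_pos_of_weighted_sum_eq_zero {κ : Type} (s : Finset κ) (w g : κ → ℝ)
    (hw : ∀ i ∈ s, 0 < w i) (hsum : ∑ i ∈ s, w i * g i = 0) (hne : ∃ i ∈ s, g i ≠ 0) :
    ∃ i ∈ s, 0 < g i := by
  by_contra hcon
  push Not at hcon
  obtain ⟨j, hj, hjne⟩ := hne
  have hlt : g j < 0 := lt_of_le_of_ne (hcon j hj) hjne
  have : ∑ i ∈ s, w i * g i < 0 := by
    apply Finset.sum_neg' (fun i hi => mul_nonpos_of_nonneg_of_nonpos (hw i hi).le (hcon i hi))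
    exact ⟨j, hj, mul_neg_of_pos_of_neg (hw j hj) hlt⟩
  linarith

section

variable {V : Type} [NormedAddCommGroup V] [NormedSpace ℝ V] [FiniteDimensional ℝ V]

omit [FiniteDimensional ℝ V] in
lemma affineIndependent_insert [DecidableEq V] (s : Finset V) (a : V)
    (hs : AffineIndependent ℝ ((↑) : s → V)) (ha : a ∉ affineSpan ℝ (s : Set V)) :
    AffineIndependent ℝ (fun x : ↥(insert a s) => (x : V)) := by
  apply AffineIndependent.affineIndependent_of_notMem_span
    (i := (⟨a, mem_insert_self a s⟩ : ↥(insert a s)))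
  · let f : {y : ↥(insert a s) // y ≠ ⟨a, mem_insert_self a s⟩} ↪ s :=
      { toFun := fun y => ⟨y.1.1, by
          have h1 := y.1.2
          rcases Finset.mem_insert.mp h1 with h2 | h2
          · exact absurd (Subtype.ext h2) y.2
          · exact h2⟩
        inj' := by
          intro y z hyz
          have : y.1.1 = z.1.1 := by simpa using hyz
          exact Subtype.ext (Subtype.ext this) }
    exact hs.comp_embedding f
  · intro hmem
    apply ha
    have hsub : (fun x : ↥(insert a s) => (x : V)) ''
        {x | x ≠ (⟨a, mem_insert_self a s⟩ : ↥(insert a s))} ⊆ (s : Set V) := by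
      rintro _ ⟨y, hy, rfl⟩
      rcases Finset.mem_insert.mp y.2 with h2 | h2
      · exact absurd (Subtype.ext h2) hy
      · exact h2
    exact affineSpan_mono ℝ hsub hmem

lemma exists_affineIndependent_between (A B : Finset V) (hBA : B ⊆ A)
    (hB : AffineIndependent ℝ ((↑) : B → V)) (hspan : affineSpan ℝ (A : Set V) = ⊤) (n : ℕ)
    (hn : n ≤ finrank ℝ V + 1) (hBn : B.card ≤ n) :
    ∃ B' : Finset V, B ⊆ B' ∧ B' ⊆ A ∧ AffineIndependent ℝ ((↑) : B' → V) ∧ B'.card = n := by
  classical
  induction n, hBn using Nat.le_induction with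
  | base => exact ⟨B, Subset.rfl, hBA, hB, rfl⟩
  | succ n hle ih =>
    obtain ⟨B', h1, h2, h3, h4⟩ := ih (by omega)
    have hex : ∃ a ∈ A, a ∉ affineSpan ℝ (B' : Set V) := by
      by_contra hcon
      push Not at hcon
      have htop : affineSpan ℝ (B' : Set V) = ⊤ := by
        rw [eq_top_iff, ← hspan]
        exact affineSpan_le.mpr (fun a ha => hcon a ha)
      have hcard : n = finrank ℝ V + 1 := by
        have h5 : affineSpan ℝ (Set.range ((↑) : B' → V)) = ⊤ := by
          rw [Subtype.range_coe]
          exact htop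
        have h6 := h3.affineSpan_eq_top_iff_card_eq_finrank_add_one.mp h5
        rw [Fintype.card_coe] at h6
        omega
      omega
    obtain ⟨a, haA, haB'⟩ := hex
    refine ⟨insert a B', h1.trans (Finset.subset_insert _ _),
      Finset.insert_subset haA h2, affineIndependent_insert B' a h3 haB', ?_⟩
    rw [Finset.card_insert_of_notMem, h4]
    intro h
    exact haB' (subset_affineSpan ℝ _ h)

/-- Core statement: if the hull of a `k`-subset of `A` meets the interior of the hull of `A`,
then this already happens for a subset of at most `max k (2 dim V + 2 - k)` points. -/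
theorem neighborly_core (A B0 : Finset V) (k : ℕ) (hk : 1 ≤ k) (hB0A : B0 ⊆ A)
    (hB0 : B0.card = k) (x : V) (hxB : x ∈ convexHull ℝ (B0 : Set V))
    (hxA : x ∈ interior (convexHull ℝ (A : Set V))) :
    ∃ A' ⊆ A, A'.card ≤ max k (2 * finrank ℝ V + 2 - k) ∧ ∃ B' ⊆ A', B'.card = k ∧
      ∃ y ∈ convexHull ℝ (B' : Set V), y ∈ interior (convexHull ℝ (A' : Set V)) := by
  classical
  set n := finrank ℝ V with hn
  have hAspan : affineSpan ℝ (A : Set V) = ⊤ :=
    interior_convexHull_nonempty_iff_affineSpan_eq_top.mp ⟨x, hxA⟩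
  -- Caratheodory
  obtain ⟨B1, hB1B0, hB1aff, hxB1⟩ : ∃ B1 : Finset V, B1 ⊆ B0 ∧
      AffineIndependent ℝ ((↑) : B1 → V) ∧ x ∈ convexHull ℝ (B1 : Set V) := by
    rw [convexHull_eq_union] at hxB
    simp only [Set.mem_iUnion] at hxB
    obtain ⟨t, ht, ht2, ht3⟩ := hxB
    exact ⟨t, by exact_mod_cast ht, ht2, ht3⟩
  have hB1card : B1.card ≤ n + 1 := by
    have := hB1aff.card_le_finrank_succ
    rw [Fintype.card_coe] at this
    refine this.trans ?_
    have := Submodule.finrank_le (vectorSpan ℝ (Set.range ((↑) : B1 → V)))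
    omega
  have hB1k : B1.card ≤ k := by
    rw [← hB0]; exact Finset.card_le_card hB1B0
  obtain ⟨B, hB1B, hBA, hBaff, hBcard⟩ := exists_affineIndependent_between A B1
    (hB1B0.trans hB0A) hB1aff hAspan (min k (n + 1)) (min_le_right _ _) (le_min hB1k hB1card)
  have hBne : B.Nonempty := by
    rw [← Finset.card_pos, hBcard]
    exact lt_min (by omega) (by omega)
  have hBpos : (0 : ℝ) < B.card := by exact_mod_cast hBne.card_pos
  -- the new point
  have hxB2 : x ∈ convexHull ℝ (B : Set V) :=
    convexHull_mono (by exact_mod_cast hB1B) hxB1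
  obtain ⟨w0, hw0, hw01, hw0x⟩ := Finset.mem_convexHull'.mp hxB2
  set w : V → ℝ := fun b => (1/2) * w0 b + (1/2) * (1 / (B.card : ℝ)) with hwdef
  have hwpos : ∀ b ∈ B, 0 < w b := by
    intro b hb
    have := hw0 b hb
    simp only [hwdef]
    positivity
  have hwsum : ∑ b ∈ B, w b = 1 := by
    simp only [hwdef]
    rw [Finset.sum_add_distrib, ← Finset.mul_sum, hw01, Finset.sum_const, nsmul_eq_mul]
    field_simp
    norm_num
  set c : V := ∑ b ∈ B, (1 / (B.card : ℝ)) • b with hc
  have hcB : c ∈ convexHull ℝ (B : Set V) := by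
    rw [Finset.mem_convexHull']
    refine ⟨fun _ => 1 / (B.card : ℝ), fun _ _ => by positivity, ?_, rfl⟩
    rw [Finset.sum_const, nsmul_eq_mul]
    field_simp
  set x' : V := (1/2 : ℝ) • x + (1/2 : ℝ) • c with hx'
  have hx'w : ∑ b ∈ B, w b • b = x' := by
    simp only [hwdef, add_smul, Finset.sum_add_distrib]
    rw [hx', hc, ← hw0x, Finset.smul_sum, Finset.smul_sum]
    simp only [mul_smul]
  have hx'B : x' ∈ convexHull ℝ (B : Set V) := by
    rw [Finset.mem_convexHull']
    exact ⟨w, fun b hb => (hwpos b hb).le, hwsum, hx'w⟩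
  have hx'A : x' ∈ interior (convexHull ℝ (A : Set V)) := by
    apply (convex_convexHull ℝ (A : Set V)).combo_interior_self_mem_interior hxA
      (convexHull_mono (by exact_mod_cast hBA) hcB) (by norm_num) (by norm_num) (by norm_num)
  -- the span
  have hwz : ∀ f : V →ₗ[ℝ] ℝ, ∑ b ∈ B, w b * f (b - x') = 0 := by
    intro f
    have h1 : ∑ b ∈ B, w b • (b - x') = 0 := by
      simp only [smul_sub]
      rw [Finset.sum_sub_distrib, ← Finset.sum_smul, hwsum, one_smul, hx'w, sub_self]
    have := congrArg f h1
    rw [map_sum, map_zero] at this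
    simpa using this
  set L := Submodule.span ℝ ((fun b => b - x') '' (B : Set V)) with hL
  have hLeq : L = vectorSpan ℝ (Set.range ((↑) : B → V)) := by
    rw [Subtype.range_coe]
    apply le_antisymm
    · rw [hL, Submodule.span_le]
      rintro _ ⟨b, hb, rfl⟩
      have h1 : b - x' = ∑ i ∈ B, w i • (b - i) := by
        simp_rw [smul_sub]
        rw [Finset.sum_sub_distrib, ← Finset.sum_smul, hwsum, one_smul, hx'w]
      simp only
      rw [h1]
      apply Submodule.sum_mem
      intro i hi
      apply Submodule.smul_mem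
      exact vsub_mem_vectorSpan ℝ hb hi
    · rw [vectorSpan_def, Submodule.span_le]
      rintro _ ⟨a, ha, b, hb, rfl⟩
      have h1 : a - b = (a - x') - (b - x') := by abel
      simp only [vsub_eq_sub]
      rw [h1]
      apply Submodule.sub_mem
      · exact Submodule.subset_span ⟨a, ha, rfl⟩
      · exact Submodule.subset_span ⟨b, hb, rfl⟩
  have hdimL : finrank ℝ L + 1 = B.card := by
    have hne : Nonempty B := hBne.to_subtype
    rw [hLeq]
    have := hBaff.finrank_vectorSpan_add_one
    rw [Fintype.card_coe] at this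
    exact this
  obtain ⟨W, hW⟩ := Submodule.exists_isCompl L
  have hdimW : finrank ℝ W + finrank ℝ L = n := by
    rw [hn, add_comm]
    exact Submodule.finrank_add_eq_of_isCompl hW
  set p := W.projectionOnto L hW.symm with hp
  have hpsurj : Function.Surjective p := Submodule.projectionOnto_surjective _
  have hAne : A.Nonempty := hBne.mono hBA
  obtain ⟨C, hCA, hCcard, hC⟩ := steinitz_idx A (finrank ℝ W) W (fun a => p (a - x')) rfl (by
    intro f hf
    have hfp : f.comp p ≠ 0 := by
      intro h0
      apply hf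
      ext y
      obtain ⟨z, rfl⟩ := hpsurj y
      exact congrArg (fun g : V →ₗ[ℝ] ℝ => g z) h0
    obtain ⟨a, ha, hlt⟩ := (mem_interior_convexHull_iff A hAne x').mp hx'A _ hfp
    refine ⟨a, ha, ?_⟩
    simp only [LinearMap.comp_apply] at hlt
    rw [map_sub, map_sub]
    linarith)
  -- the small set
  set A1 := B ∪ C with hA1
  have hA1A : A1 ⊆ A := Finset.union_subset hBA hCA
  have hA1card : A1.card ≤ max k (2 * n + 2 - k) := by
    have h1 : A1.card ≤ B.card + C.card := Finset.card_union_le _ _
    have h2 : A1.card ≤ 2 * n + 2 - B.card := by omega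
    rcases le_total k (n + 1) with h | h
    · have h3 : B.card = k := by rw [hBcard, min_eq_left h]
      rw [h3] at h2
      exact h2.trans (le_max_right _ _)
    · have h3 : B.card = n + 1 := by rw [hBcard, min_eq_right h]
      rw [h3] at h2
      exact (by omega : A1.card ≤ k).trans (le_max_left _ _)
  have hx'A1 : x' ∈ interior (convexHull ℝ (A1 : Set V)) := by
    rw [mem_interior_convexHull_iff A1 (hBne.mono Finset.subset_union_left)]
    intro f hf
    by_cases hfL : ∀ l ∈ L, f l = 0
    · have hfW : f.comp W.subtype ≠ 0 := by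
        intro h0
        apply hf
        ext y
        have h1 : y = p y + (y - p y) := by abel
        have h2 : y - p y ∈ L := Submodule.sub_projection_mem hW.symm y
        have h3 : f y = f (p y) + f (y - p y) := by
          rw [← map_add]; congr 1
        rw [h3, hfL _ h2, add_zero]
        exact congrArg (fun g : W →ₗ[ℝ] ℝ => g (p y)) h0
      obtain ⟨a, ha, hlt⟩ := hC _ hfW
      refine ⟨a, Finset.mem_union_right _ ha, ?_⟩
      have h2 : (a - x') - p (a - x') ∈ L := Submodule.sub_projection_mem hW.symm (a - x')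
      have h3 := hfL _ h2
      rw [map_sub, map_sub] at h3
      simp only [LinearMap.comp_apply, Submodule.subtype_apply] at hlt
      linarith
    · have hfz : ∃ b ∈ B, f (b - x') ≠ 0 := by
        by_contra hcon
        push Not at hcon
        apply hfL
        intro l hl
        have : L ≤ LinearMap.ker f := by
          rw [hL, Submodule.span_le]
          rintro _ ⟨b, hb, rfl⟩
          exact hcon b hb
        exact this hl
      obtain ⟨b, hb, hlt⟩ := exists_pos_of_weighted_sum_eq_zero B w (fun b => f (b - x')) hwpos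
        (hwz f) hfz
      refine ⟨b, Finset.mem_union_left _ hb, ?_⟩
      simp only [map_sub] at hlt
      linarith
  -- enlarge to have at least k points
  have hkA : k ≤ A.card := by rw [← hB0]; exact Finset.card_le_card hB0A
  obtain ⟨A', hA1A', hA'A, hA'card⟩ := Finset.exists_subsuperset_card_eq hA1A
    (le_max_left A1.card k) (max_le (Finset.card_le_card hA1A) hkA)
  have hBk : B.card ≤ k := by rw [hBcard]; exact min_le_left _ _
  obtain ⟨B', hBB', hB'A', hB'card⟩ := Finset.exists_subsuperset_card_eq
    ((Finset.subset_union_left).trans hA1A') hBk (by rw [hA'card]; exact le_max_right _ _)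
  refine ⟨A', hA'A, ?_, B', hB'A', hB'card, x',
    convexHull_mono (by exact_mod_cast hBB') hx'B,
    interior_mono (convexHull_mono (by exact_mod_cast hA1A')) hx'A1⟩
  rw [hA'card]
  exact max_le hA1card (le_max_left _ _)

end

end Pool.Agent.Convex97
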