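import Mathlib
import Pool.Agent.Convex97.Polytope
import Pool.Agent.Convex97.Matching

set_option autoImplicit false

/-!
Three-dimensional polytopes: every polytope with `n` facets in a three-dimensional space has a set
of at most `2n/3` boundary points meeting all facets.
-/

namespace Pool.Agent.Convex97

open Module Finset Filter Topology

section

variable {E : Type} [NormedAddCommGroup E] [NormedSpace ℝ E] [FiniteDimensional ℝ E]

/-- Two independent functionals on a three-dimensional space have a one-dimensional common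
kernel. -/
lemma common_ker (hE : finrank ℝ E = 3) (g h : E →ₗ[ℝ] ℝ) (hgh : LinearIndependent ℝ ![g, h]) :
    ∃ u : E, u ≠ 0 ∧ g u = 0 ∧ h u = 0 ∧ ∀ w, g w = 0 → h w = 0 → ∃ c : ℝ, w = c • u := by
  set W : Submodule ℝ (Module.Dual ℝ E) := Submodule.span ℝ (Set.range ![g, h]) with hW
  have h1 : finrank ℝ W = 2 := by
    rw [hW, finrank_span_eq_card hgh]; simp
  have h2 : finrank ℝ W + finrank ℝ W.dualCoannihilator = finrank ℝ E :=
    Subspace.finrank_add_finrank_dualCoannihilator_eq W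
  have h3 : finrank ℝ W.dualCoannihilator = 1 := by omega
  obtain ⟨u, hu, hu'⟩ := finrank_eq_one_iff'.mp h3
  have hgW : g ∈ W := Submodule.subset_span ⟨0, rfl⟩
  have hhW : h ∈ W := Submodule.subset_span ⟨1, rfl⟩
  have hmem : ∀ w : E, g w = 0 → h w = 0 → w ∈ W.dualCoannihilator := by
    intro w hgw hhw
    rw [Submodule.mem_dualCoannihilator]
    intro φ hφ
    rw [hW, Submodule.mem_span_range_iff_exists_fun] at hφ
    obtain ⟨c, rfl⟩ := hφ
    simp [hgw, hhw]
  refine ⟨u.1, fun h0 => hu (Subtype.ext h0), ?_, ?_, ?_⟩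
  · exact (Submodule.mem_dualCoannihilator u.1).mp u.2 g hgW
  · exact (Submodule.mem_dualCoannihilator u.1).mp u.2 h hhW
  · intro w hgw hhw
    obtain ⟨c, hc⟩ := hu' ⟨w, hmem w hgw hhw⟩
    exact ⟨c, (congrArg Subtype.val hc).symm⟩

variable {ι : Type} [Fintype ι]

/-- A generic functional. -/
lemma exists_generic (hE : finrank ℝ E = 3) (f : ι → E →ₗ[ℝ] ℝ) (X : Set E) (hX : X.Finite) :
    ∃ ℓ : E →ₗ[ℝ] ℝ, (∀ x ∈ X, ∀ y ∈ X, ℓ x = ℓ y → x = y) ∧
      ∀ i j, LinearIndependent ℝ ![f i, f j] → ∀ w, f i w = 0 → f j w = 0 → ℓ w = 0 → w = 0 := by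
  classical
  have : Finite X := hX
  let κ1 := {p : X × X // p.1 ≠ p.2}
  let κ2 := {p : ι × ι // LinearIndependent ℝ ![f p.1, f p.2]}
  choose u hu hu1 hu2 hu3 using fun p : κ2 => common_ker hE (f p.1.1) (f p.1.2) p.2
  let v : κ1 ⊕ κ2 → E := fun s => match s with
    | Sum.inl p => (p.1.1 : E) - (p.1.2 : E)
    | Sum.inr p => u p
  have hv : ∀ s, v s ≠ 0 := by
    rintro (p | p)
    · intro h
      apply p.2
      exact Subtype.ext (sub_eq_zero.mp h)
    · exact hu p
  obtain ⟨ℓ, hℓ⟩ := Module.exists_dual_forall_apply_ne_zero (K := ℝ) v hv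
  refine ⟨ℓ, ?_, ?_⟩
  · intro x hx y hy hxy
    by_contra hne
    have h1 := hℓ (Sum.inl ⟨(⟨x, hx⟩, ⟨y, hy⟩), fun h => hne (congrArg Subtype.val h)⟩)
    apply h1
    change ℓ (x - y) = 0
    rw [map_sub, hxy, sub_self]
  · intro i j hij w hi hj hw
    obtain ⟨c, hc⟩ := hu3 ⟨(i, j), hij⟩ w hi hj
    have h1 := hℓ (Sum.inr ⟨(i, j), hij⟩)
    change ℓ (u ⟨(i, j), hij⟩) ≠ 0 at h1
    rw [hc, map_smul, smul_eq_mul] at hw
    rcases mul_eq_zero.mp hw with h | h
    · rw [hc, h, zero_smul]
    · exact absurd h h1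

/-- Points in a facet of the polyhedron lie in its frontier. -/
lemma fc_subset_frontier (f : ι → E →ₗ[ℝ] ℝ) (b : ι → ℝ) (i : ι) (hfi : f i ≠ 0) :
    fc f b i ⊆ frontier (hp f b) := by
  intro x hx
  rw [(hp_closed f b).frontier_eq]
  refine ⟨hx.1, fun hint => ?_⟩
  obtain ⟨u, hu⟩ : ∃ u, 0 < f i u := by
    obtain ⟨v, hv⟩ : ∃ v, f i v ≠ 0 := by
      by_contra h
      push Not at h
      exact hfi (LinearMap.ext h)
    rcases lt_or_gt_of_ne hv with h | h
    · exact ⟨-v, by rw [map_neg]; linarith⟩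
    · exact ⟨v, h⟩
  have hcont : Continuous (fun t : ℝ => x + t • u) := by fun_prop
  have hmem : ∀ᶠ t in 𝓝 (0 : ℝ), x + t • u ∈ interior (hp f b) := by
    apply hcont.continuousAt.eventually
    simp only [zero_smul, add_zero]
    exact isOpen_interior.mem_nhds hint
  obtain ⟨t, ht, htpos⟩ := ((hmem.filter_mono nhdsWithin_le_nhds).and
    (self_mem_nhdsWithin : Set.Ioi (0:ℝ) ∈ 𝓝[>] 0)).exists
  have h1 := interior_subset ht i
  rw [map_add, map_smul, hx.2, smul_eq_mul] at h1
  have : 0 < t * f i u := mul_pos htpos hu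
  linarith

/-- Every facet has a vertex at which a functional injective on vertices is neither maximal nor
minimal on the facet. -/
lemma exists_middle (hE : finrank ℝ E = 3) (f : ι → E →ₗ[ℝ] ℝ) (b : ι → ℝ)
    (hb : Bornology.IsBounded (hp f b)) (i : ι) (hfi : f i ≠ 0) (z : E)
    (hz : f i z = b i) (hz' : ∀ j, j ≠ i → f j z < b j) (ℓ : E →ₗ[ℝ] ℝ)
    (hℓ : ∀ x ∈ Set.extremePoints ℝ (hp f b), ∀ y ∈ Set.extremePoints ℝ (hp f b),
      ℓ x = ℓ y → x = y) :
    ∃ m ∈ Set.extremePoints ℝ (hp f b), m ∈ fc f b i ∧ (∃ p ∈ fc f b i, ℓ m < ℓ p) ∧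
      (∃ q ∈ fc f b i, ℓ q < ℓ m) := by
  classical
  have hfacet := isFacet_fc f b i hfi z hz hz'
  have hdim : finrank ℝ (vectorSpan ℝ (fc f b i)) = 2 := by
    have := hfacet.2.2
    omega
  have hcomp : IsCompact (fc f b i) :=
    Metric.isCompact_of_isClosed_isBounded (fc_closed f b i) (hb.subset (fun x hx => hx.1))
  have hext : Set.extremePoints ℝ (fc f b i) = fc f b i ∩ Set.extremePoints ℝ (hp f b) :=
    (exposed_fc f b i).isExtreme.extremePoints_eq
  have hfin : (Set.extremePoints ℝ (fc f b i)).Finite := by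
    rw [hext]
    exact (finite_extremePoints f b).subset Set.inter_subset_right
  have hhull : convexHull ℝ (Set.extremePoints ℝ (fc f b i)) = fc f b i := by
    have h1 := closure_convexHull_extremePoints hcomp (fc_convex f b i)
    rwa [(hfin.isCompact_convexHull ℝ).isClosed.closure_eq] at h1
  set Y := hfin.toFinset with hY
  have hYcoe : (Y : Set E) = Set.extremePoints ℝ (fc f b i) := hfin.coe_toFinset
  have hYspan : finrank ℝ (vectorSpan ℝ (Y : Set E)) = 2 := by
    rw [← direction_affineSpan, ← affineSpan_convexHull, hYcoe, hhull, direction_affineSpan]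
    exact hdim
  have hYcard : 3 ≤ Y.card := by
    by_contra hcon
    push Not at hcon
    rcases Nat.eq_zero_or_pos Y.card with h0 | h0
    · rw [Finset.card_eq_zero.mp h0, Finset.coe_empty, vectorSpan_empty, finrank_bot] at hYspan
      omega
    · obtain ⟨n, hn⟩ : ∃ n, Y.card = n + 1 := ⟨Y.card - 1, by omega⟩
      have h1 := finrank_vectorSpan_image_finset_le ℝ (id : E → E) Y hn
      rw [Finset.image_id, hYspan] at h1
      omega
  have hYne : Y.Nonempty := by rw [← Finset.card_pos]; omega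
  obtain ⟨p, hpY, hpmax⟩ := Finset.exists_max_image Y ℓ hYne
  obtain ⟨q, hqY, hqmin⟩ := Finset.exists_min_image Y ℓ hYne
  obtain ⟨m, hmY, hmp, hmq⟩ : ∃ m ∈ Y, m ≠ p ∧ m ≠ q := by
    by_contra hcon
    push Not at hcon
    have h1 : Y ⊆ {p, q} := by
      intro m hm
      rw [Finset.mem_insert, Finset.mem_singleton]
      by_cases hmp : m = p
      · exact Or.inl hmp
      · exact Or.inr (hcon m hm hmp)
    have h2 := Finset.card_le_card h1
    have h3 := Finset.card_le_two (a := p) (b := q)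
    omega
  have hmem : ∀ y ∈ Y, y ∈ fc f b i ∧ y ∈ Set.extremePoints ℝ (hp f b) := by
    intro y hy
    have : y ∈ (Y : Set E) := hy
    rw [hYcoe, hext] at this
    exact this
  refine ⟨m, (hmem m hmY).2, (hmem m hmY).1, ⟨p, (hmem p hpY).1, ?_⟩, ⟨q, (hmem q hqY).1, ?_⟩⟩
  · apply lt_of_le_of_ne (hpmax m hmY)
    intro h
    exact hmp (hℓ m (hmem m hmY).2 p (hmem p hpY).2 h)
  · apply lt_of_le_of_ne (hqmin m hmY)
    intro h
    exact hmq (hℓ q (hmem q hqY).2 m (hmem m hmY).2 h).symm

/-- Every vertex is the highest or the lowest point of some facet containing it. -/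
lemma exists_extremal_facet (hE : finrank ℝ E = 3) (f : ι → E →ₗ[ℝ] ℝ) (b : ι → ℝ)
    (ℓ : E →ₗ[ℝ] ℝ) (hℓ0 : ℓ ≠ 0)
    (hgen : ∀ i j, LinearIndependent ℝ ![f i, f j] → ∀ w, f i w = 0 → f j w = 0 → ℓ w = 0 → w = 0)
    (v : E) (hv : v ∈ Set.extremePoints ℝ (hp f b)) :
    ∃ j, v ∈ fc f b j ∧ ((∀ x ∈ fc f b j, ℓ x ≤ ℓ v) ∨ (∀ x ∈ fc f b j, ℓ v ≤ ℓ x)) := by
  classical
  by_contra hcon
  push Not at hcon
  -- horizontal directions inside the active facets
  have hu : ∀ j, f j v = b j → ∃ u : E, u ≠ 0 ∧ ℓ u = 0 ∧ f j u = 0 ∧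
      ∀ k, f k v = b k → f k u ≤ 0 := by
    intro j hj
    obtain ⟨⟨p, hpj, hlp⟩, ⟨q, hqj, hlq⟩⟩ := hcon j ⟨hv.1, hj⟩
    have hden : 0 < ℓ p - ℓ q := by linarith
    set t := (ℓ v - ℓ q) / (ℓ p - ℓ q) with ht
    have ht0 : 0 < t := div_pos (by linarith) hden
    have ht1 : t < 1 := by rw [ht, div_lt_one hden]; linarith
    set w := t • p + (1 - t) • q with hw
    have hwj : w ∈ fc f b j :=
      (fc_convex f b j) hpj hqj ht0.le (by linarith) (by ring)
    have hlw : ℓ w = ℓ v := by
      rw [hw, map_add, map_smul, map_smul, smul_eq_mul, smul_eq_mul]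
      have : t * (ℓ p - ℓ q) = ℓ v - ℓ q := by rw [ht]; field_simp
      linarith
    refine ⟨w - v, ?_, ?_, ?_, ?_⟩
    · intro h0
      have hwv : w = v := sub_eq_zero.mp h0
      have hseg : v ∈ openSegment ℝ p q := ⟨t, 1 - t, ht0, by linarith, by ring, by rw [← hwv]⟩
      have := hv.2 hpj.1 hqj.1 hseg
      rw [this] at hlp
      exact lt_irrefl _ hlp
    · rw [map_sub, hlw, sub_self]
    · rw [map_sub, hwj.2, hj, sub_self]
    · intro k hk
      rw [map_sub, hk]
      have := hwj.1 k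
      linarith
  -- a basis of active functionals
  set s : Set (Module.Dual ℝ E) := f '' {j | f j v = b j} with hs
  have hspan : finrank ℝ (Submodule.span ℝ s) = 3 := by
    have h2 : finrank ℝ (Submodule.span ℝ s) + finrank ℝ (Submodule.span ℝ s).dualCoannihilator
        = finrank ℝ E := Subspace.finrank_add_finrank_dualCoannihilator_eq _
    have h3 : (Submodule.span ℝ s).dualCoannihilator = ⊥ := by
      rw [eq_bot_iff]
      intro u hu'
      rw [Submodule.mem_dualCoannihilator] at hu'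
      rw [Submodule.mem_bot]
      apply active_ker f b v hv u
      intro j hj
      exact hu' (f j) (Submodule.subset_span ⟨j, hj, rfl⟩)
    rw [h3, finrank_bot] at h2
    omega
  have htop : Submodule.span ℝ s = ⊤ := by
    apply Submodule.eq_top_of_finrank_eq
    rw [hspan, Subspace.dual_finrank_eq, hE]
  have key := Submodule.exists_fun_fin_finrank_span_eq ℝ s
  rw [hspan] at key
  obtain ⟨g, hg1, hg2, hg3⟩ := key
  choose jj hjj1 hjj2 using hg1
  choose u hu0 hu1 hu2 hu3 using fun k => hu (jj k) (hjj1 k)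
  have hℓspan : ℓ ∈ Submodule.span ℝ (Set.range g) := by
    rw [hg2, htop]; exact Submodule.mem_top
  rw [Submodule.mem_span_range_iff_exists_fun] at hℓspan
  obtain ⟨α, hα⟩ := hℓspan
  have hval : ∀ m, α 0 * g 0 (u m) + α 1 * g 1 (u m) + α 2 * g 2 (u m) = 0 := by
    intro m
    have h1 : (∑ i, α i • g i) (u m) = ℓ (u m) := by rw [hα]
    rw [Fin.sum_univ_three, hu1 m] at h1
    exact h1
  have hself : ∀ m, g m (u m) = 0 := by
    intro m
    rw [← hjj2 m]; exact hu2 m
  have hneg : ∀ k m, k ≠ m → g k (u m) < 0 := by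
    intro k m hkm
    apply lt_of_le_of_ne
    · rw [← hjj2 k]; exact hu3 m (jj k) (hjj1 k)
    · intro h0
      apply hu0 m
      apply hgen (jj m) (jj k)
      · rw [hjj2 m, hjj2 k]
        have hinj : Function.Injective ![m, k] := by
          intro a c hac
          fin_cases a <;> fin_cases c <;> simp_all
        have h1 := hg3.comp ![m, k] hinj
        have h2 : (![g m, g k] : Fin 2 → (E →ₗ[ℝ] ℝ)) = g ∘ ![m, k] := by
          funext a
          fin_cases a <;> rfl
        rw [h2]
        exact h1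
      · rw [hjj2 m]; exact hself m
      · rw [hjj2 k]; exact h0
      · exact hu1 m
  have e0 := hval 0
  have e1 := hval 1
  have e2 := hval 2
  rw [hself 0] at e0
  rw [hself 1] at e1
  rw [hself 2] at e2
  have n10 := hneg 1 0 (by decide)
  have n20 := hneg 2 0 (by decide)
  have n01 := hneg 0 1 (by decide)
  have n21 := hneg 2 1 (by decide)
  have n02 := hneg 0 2 (by decide)
  have n12 := hneg 1 2 (by decide)
  -- sign contradiction
  rcases lt_trichotomy (α 0) 0 with h0 | h0 | h0
  · -- α 2 > 0 from e1, α 1 > 0 from e2, contradiction with e0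
    have h2 : 0 < α 2 := by
      by_contra h
      push Not at h
      have a1 : 0 < α 0 * g 0 (u 1) := mul_pos_of_neg_of_neg h0 n01
      have a2 : 0 ≤ α 2 * g 2 (u 1) := mul_nonneg_of_nonpos_of_nonpos h n21.le
      linarith
    have h1 : 0 < α 1 := by
      by_contra h
      push Not at h
      have a1 : 0 < α 0 * g 0 (u 2) := mul_pos_of_neg_of_neg h0 n02
      have a2 : 0 ≤ α 1 * g 1 (u 2) := mul_nonneg_of_nonpos_of_nonpos h n12.le
      linarith
    have a1 : α 1 * g 1 (u 0) < 0 := mul_neg_of_pos_of_neg h1 n10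
    have a2 : α 2 * g 2 (u 0) < 0 := mul_neg_of_pos_of_neg h2 n20
    linarith
  · rw [h0] at e1 e2
    have h2 : α 2 = 0 := by
      have : α 2 * g 2 (u 1) = 0 := by linarith
      exact (mul_eq_zero.mp this).resolve_right n21.ne
    have h1 : α 1 = 0 := by
      have : α 1 * g 1 (u 2) = 0 := by linarith
      exact (mul_eq_zero.mp this).resolve_right n12.ne
    apply hℓ0
    rw [← hα, Fin.sum_univ_three, h0, h1, h2]
    simp
  · have h2 : α 2 < 0 := by
      by_contra h
      push Not at h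
      have a1 : α 0 * g 0 (u 1) < 0 := mul_neg_of_pos_of_neg h0 n01
      have a2 : α 2 * g 2 (u 1) ≤ 0 := mul_nonpos_of_nonneg_of_nonpos h n21.le
      linarith
    have h1 : α 1 < 0 := by
      by_contra h
      push Not at h
      have a1 : α 0 * g 0 (u 2) < 0 := mul_neg_of_pos_of_neg h0 n02
      have a2 : α 1 * g 1 (u 2) ≤ 0 := mul_nonpos_of_nonneg_of_nonpos h n12.le
      linarith
    have a1 : 0 < α 1 * g 1 (u 0) := mul_pos_of_neg_of_neg h1 n10
    have a2 : 0 < α 2 * g 2 (u 0) := mul_pos_of_neg_of_neg h2 n20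
    linarith

/-- In dimension three, the facets of a polytope with `n` facets can be met by at most `2n/3`
boundary points. -/
theorem three_dim_transversal (hE : finrank ℝ E = 3) (f : ι → E →ₗ[ℝ] ℝ) (b : ι → ℝ)
    (hb : Bornology.IsBounded (hp f b)) (hf : ∀ i, f i ≠ 0)
    (hirr : ∀ i, ∃ z, f i z = b i ∧ ∀ j, j ≠ i → f j z < b j) :
    ∃ K : Finset E, (∀ x ∈ K, x ∈ frontier (hp f b)) ∧ (∀ i, ∃ x ∈ K, x ∈ fc f b i) ∧
      3 * K.card ≤ 2 * Fintype.card ι := by
  classical
  obtain ⟨ℓ, hℓ, hgen⟩ := exists_generic hE f (Set.extremePoints ℝ (hp f b))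
    (finite_extremePoints f b)
  have hmid : ∀ i, ∃ m ∈ Set.extremePoints ℝ (hp f b), m ∈ fc f b i ∧
      (∃ p ∈ fc f b i, ℓ m < ℓ p) ∧ (∃ q ∈ fc f b i, ℓ q < ℓ m) := by
    intro i
    obtain ⟨z, hz, hz'⟩ := hirr i
    exact exists_middle hE f b hb i (hf i) z hz hz' ℓ hℓ
  choose m hmext hmfc hmup hmdown using hmid
  have hne : ∀ i, (fc f b i).Nonempty := fun i => ⟨m i, hmfc i⟩
  have htrans := exists_transversal (fun i => fc f b i) hne (by
    intro S hS
    by_cases hSe : S = ∅
    · exact ⟨∅, by simp, by simp [hSe]⟩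
    obtain ⟨i0, hi0⟩ := Finset.nonempty_iff_ne_empty.mpr hSe
    have hℓ0 : ℓ ≠ 0 := by
      obtain ⟨p, _, hplt⟩ := hmup i0
      intro h0
      rw [h0] at hplt
      simp at hplt
    have hex := fun i => exists_extremal_facet hE f b ℓ hℓ0 hgen (m i) (hmext i)
    choose j hj1 hj2 using hex
    let sgn : ι → Bool := fun i => decide (∀ x ∈ fc f b (j i), ℓ x ≤ ℓ (m i))
    have hsgn1 : ∀ i, sgn i = true → ∀ x ∈ fc f b (j i), ℓ x ≤ ℓ (m i) := by
      intro i hi
      exact of_decide_eq_true hi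
    have hsgn2 : ∀ i, sgn i = false → ∀ x ∈ fc f b (j i), ℓ (m i) ≤ ℓ x := by
      intro i hi
      have h1 : ¬ ∀ x ∈ fc f b (j i), ℓ x ≤ ℓ (m i) := of_decide_eq_false hi
      exact (hj2 i).resolve_left h1
    refine ⟨S.image j, ?_, ?_⟩
    · intro k hk
      obtain ⟨i, hi, rfl⟩ := Finset.mem_image.mp hk
      refine ⟨i, hi, ?_, ⟨m i, hmfc i, hj1 i⟩⟩
      intro hij
      rcases hj2 i with h | h
      · obtain ⟨p, hpm, hlt⟩ := hmup i
        rw [hij] at hpm
        exact absurd (h p hpm) (not_le.mpr hlt)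
      · obtain ⟨q, hq, hlt⟩ := hmdown i
        rw [hij] at hq
        exact absurd (h q hq) (not_le.mpr hlt)
    · have hinj : Set.InjOn (fun i => (j i, sgn i)) (S : Set ι) := by
        intro i hi i' hi' heq
        have hjeq : j i = j i' := congrArg Prod.fst heq
        have hseq : sgn i = sgn i' := congrArg Prod.snd heq
        have hmeq : m i = m i' := by
          apply hℓ _ (hmext i) _ (hmext i')
          cases hs : sgn i
          · have hs' : sgn i' = false := by rw [← hseq]; exact hs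
            apply le_antisymm
            · exact hsgn2 i hs _ (by rw [hjeq]; exact hj1 i')
            · exact hsgn2 i' hs' _ (by rw [← hjeq]; exact hj1 i)
          · have hs' : sgn i' = true := by rw [← hseq]; exact hs
            apply le_antisymm
            · exact hsgn1 i' hs' _ (by rw [← hjeq]; exact hj1 i)
            · exact hsgn1 i hs _ (by rw [hjeq]; exact hj1 i')
        by_contra hne'
        apply hS i hi i' hi' hne'
        exact ⟨m i, hmfc i, by rw [hmeq]; exact hmfc i'⟩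
      have h1 : (S.image (fun i => (j i, sgn i))).card = S.card :=
        Finset.card_image_of_injOn hinj
      have h2 : S.image (fun i => (j i, sgn i)) ⊆ (S.image j) ×ˢ (univ : Finset Bool) := by
        intro x hx
        obtain ⟨i, hi, rfl⟩ := Finset.mem_image.mp hx
        rw [Finset.mem_product]
        exact ⟨Finset.mem_image_of_mem _ hi, Finset.mem_univ _⟩
      have h3 := Finset.card_le_card h2
      rw [h1, Finset.card_product, Finset.card_univ, Fintype.card_bool] at h3
      omega)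
  obtain ⟨K, hK1, hK2, hK3⟩ := htrans
  refine ⟨K, ?_, hK2, hK3⟩
  intro x hx
  obtain ⟨i, hi⟩ := hK1 x hx
  exact fc_subset_frontier f b i (hf i) hi

end

end Pool.Agent.Convex97
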